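import Mathlib

open scoped Nat
open MeasureTheory

namespace FDQ

noncomputable section

/-- Beta integral. -/
lemma beta_integral (s : ℝ) (k : ℕ) : ∀ j : ℕ,
    ∫ r in (0:ℝ)..s, (r ^ j / (j ! : ℝ)) * ((s - r) ^ k / (k ! : ℝ)) =
      s ^ (j + k + 1) / ((j + k + 1)! : ℝ) := by
  induction k with
  | zero =>
    intro j
    simp only [pow_zero, Nat.factorial_zero, Nat.cast_one, div_one, mul_one, add_zero]
    rw [intervalIntegral.integral_div, integral_pow]
    rw [Nat.factorial_succ]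
    push_cast
    have : ((j ! : ℕ) : ℝ) ≠ 0 := by positivity
    have : ((j : ℝ) + 1) ≠ 0 := by positivity
    field_simp
    simp
  | succ k ih =>
    intro j
    have key : ∀ r : ℝ, HasDerivAt (fun r : ℝ => (r ^ (j+1) / ((j+1) ! : ℝ)) * ((s - r) ^ (k+1) / ((k+1) ! : ℝ)))
        ((r ^ j / (j ! : ℝ)) * ((s - r) ^ (k+1) / ((k+1) ! : ℝ)) -
          (r ^ (j+1) / ((j+1) ! : ℝ)) * ((s - r) ^ k / (k ! : ℝ))) r := by
      intro r
      have h1 : HasDerivAt (fun r : ℝ => r ^ (j+1) / ((j+1) ! : ℝ)) (r ^ j / (j ! : ℝ)) r := by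
        have := (hasDerivAt_pow (j+1) r).div_const ((j+1) ! : ℝ)
        convert! this using 1
        rw [Nat.factorial_succ]
        push_cast
        have : ((j ! : ℕ) : ℝ) ≠ 0 := by positivity
        have : ((j : ℝ) + 1) ≠ 0 := by positivity
        field_simp
      have h2 : HasDerivAt (fun r : ℝ => (s - r) ^ (k+1) / ((k+1) ! : ℝ)) (-((s-r) ^ k / (k ! : ℝ))) r := by
        have h0 : HasDerivAt (fun r : ℝ => s - r) (-1) r := by
          simpa using (hasDerivAt_id r).const_sub s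
        have := ((h0.pow (k+1))).div_const ((k+1) ! : ℝ)
        convert! this using 1
        rw [Nat.factorial_succ]
        push_cast
        have : ((k ! : ℕ) : ℝ) ≠ 0 := by positivity
        have : ((k : ℝ) + 1) ≠ 0 := by positivity
        simp
        field_simp
      convert! h1.mul h2 using 1
      ring
    have h := intervalIntegral.integral_eq_sub_of_hasDerivAt (a := 0) (b := s) (fun r _ => key r)
      (by apply Continuous.intervalIntegrable; fun_prop)
    rw [intervalIntegral.integral_sub (by apply Continuous.intervalIntegrable; fun_prop)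
      (by apply Continuous.intervalIntegrable; fun_prop), ih (j+1)] at h
    simp only [sub_self, ne_eq, Nat.add_eq_zero_iff, one_ne_zero, and_false, not_false_eq_true, zero_pow, zero_div,
      mul_zero, sub_zero, zero_mul] at h
    have e : j + 1 + k + 1 = j + (k + 1) + 1 := by ring
    rw [e] at h
    linarith

variable {L : Type*} [NormedRing L] [NormedAlgebra ℂ L] [CompleteSpace L]
variable {W : Type*} [NormedAddCommGroup W] [NormedSpace ℂ W] [CompleteSpace W]

omit [CompleteSpace L] in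
lemma norm_smul_pow_le (a : L) (z : ℂ) (R : ℝ) (hz : ‖z‖ ≤ R) (j : ℕ) :
    ‖(((j ! : ℕ) : ℂ)⁻¹) • (z • a) ^ j‖ ≤ (R ^ j * (‖a‖ ^ j + ‖(1 : L)‖)) / (j ! : ℝ) := by
  rw [norm_smul, norm_inv, Complex.norm_natCast, smul_pow, norm_smul, norm_pow]
  have h1 : ‖a ^ j‖ ≤ ‖a‖ ^ j + ‖(1 : L)‖ := by
    rcases Nat.eq_zero_or_pos j with rfl | hj
    · simp
    · exact (norm_pow_le' a hj).trans (by linarith [norm_nonneg (1 : L)])
  have h2 : ‖z‖ ^ j ≤ R ^ j := pow_le_pow_left₀ (norm_nonneg _) hz j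
  have hR : 0 ≤ R := (norm_nonneg _).trans hz
  rw [div_eq_inv_mul]
  gcongr

lemma summable_bound (A R N : ℝ) : Summable fun j : ℕ => (R ^ j * (A ^ j + N)) / (j ! : ℝ) := by
  have h1 := Real.summable_pow_div_factorial (R * A)
  have h2 := (Real.summable_pow_div_factorial R).mul_left N
  refine (h1.add h2).congr ?_
  intro j
  rw [mul_pow]; ring

/-- Duhamel's formula in power series form, double series version. -/
lemma duhamel_prod (B : L →L[ℂ] L →L[ℂ] W) (a : L) (c : ℂ) (s : ℝ) :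
    HasSum (fun p : ℕ × ℕ => ((c * s) ^ (p.1 + p.2 + 1) / ((p.1 + p.2 + 1)! : ℂ)) • B (a ^ p.1) (a ^ p.2))
      (c • ∫ r in (0:ℝ)..s, B (NormedSpace.exp ((c * r) • a)) (NormedSpace.exp ((c * (s - r : ℝ)) • a))) := by
  set R : ℝ := ‖c‖ * |s| with hR
  have hR0 : 0 ≤ R := by positivity
  set g : ℕ → ℝ := fun j => (R ^ j * (‖a‖ ^ j + ‖(1 : L)‖)) / (j ! : ℝ) with hg
  have hgs : Summable g := summable_bound ‖a‖ R ‖(1 : L)‖
  have hg0 : ∀ j, 0 ≤ g j := fun j => by positivity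
  set F : ℕ × ℕ → ℝ → W := fun p r =>
    B ((((p.1)! : ℂ)⁻¹) • ((c * r) • a) ^ p.1) ((((p.2)! : ℂ)⁻¹) • ((c * (s - r : ℝ)) • a) ^ p.2) with hF
  have hFc : ∀ p, Continuous (F p) := by
    intro p
    have e1 : Continuous fun r : ℝ => (((p.1)! : ℂ)⁻¹) • ((c * r) • a) ^ p.1 := by fun_prop
    have e2 : Continuous fun r : ℝ => (((p.2)! : ℂ)⁻¹) • ((c * (s - r : ℝ)) • a) ^ p.2 := by fun_prop
    exact (B.continuous.comp e1).clm_apply e2
  have hbound : ∀ p r, r ∈ Set.uIoc 0 s → ‖F p r‖ ≤ ‖B‖ * (g p.1 * g p.2) := by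
    intro p r hr
    have hr1 : |r| ≤ |s| := by
      rcases le_total 0 s with h | h
      · rw [Set.uIoc_of_le h] at hr
        rw [abs_of_pos hr.1, abs_of_nonneg h]; exact hr.2
      · rw [Set.uIoc_of_ge h] at hr
        rw [abs_of_nonpos hr.2, abs_of_nonpos h]; linarith [hr.1]
    have hr2 : |s - r| ≤ |s| := by
      rcases le_total 0 s with h | h
      · rw [Set.uIoc_of_le h] at hr
        rw [abs_of_nonneg (by linarith [hr.2]), abs_of_nonneg h]; linarith [hr.1]
      · rw [Set.uIoc_of_ge h] at hr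
        rw [abs_of_nonpos (by linarith [hr.1]), abs_of_nonpos h]; linarith [hr.2]
    have n1 : ‖(((p.1)! : ℂ)⁻¹) • ((c * r) • a) ^ p.1‖ ≤ g p.1 := by
      apply norm_smul_pow_le
      rw [norm_mul, Complex.norm_real, Real.norm_eq_abs, hR]
      gcongr
    have n2 : ‖(((p.2)! : ℂ)⁻¹) • ((c * (s - r : ℝ)) • a) ^ p.2‖ ≤ g p.2 := by
      apply norm_smul_pow_le
      rw [norm_mul, Complex.norm_real, Real.norm_eq_abs, hR]
      gcongr
    calc ‖F p r‖ ≤ ‖B‖ * ‖(((p.1)! : ℂ)⁻¹) • ((c * r) • a) ^ p.1‖ * ‖(((p.2)! : ℂ)⁻¹) • ((c * (s - r : ℝ)) • a) ^ p.2‖ :=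
          B.le_opNorm₂ _ _
      _ ≤ ‖B‖ * g p.1 * g p.2 := by gcongr
      _ = _ := by ring
  have hsum2 : Summable fun p : ℕ × ℕ => ‖B‖ * (g p.1 * g p.2) :=
    (hgs.mul_of_nonneg hgs hg0 hg0).mul_left _
  have hlim : ∀ r : ℝ, HasSum (fun p => F p r)
      (B (NormedSpace.exp ((c * r) • a)) (NormedSpace.exp ((c * (s - r : ℝ)) • a))) := by
    intro r
    have h1 := NormedSpace.exp_series_hasSum_exp' (𝕂 := ℂ) ((c * r) • a)
    have h2 := NormedSpace.exp_series_hasSum_exp' (𝕂 := ℂ) ((c * (s - r : ℝ)) • a)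
    have n1 := NormedSpace.norm_expSeries_summable' (𝕂 := ℂ) ((c * r) • a)
    have n2 := NormedSpace.norm_expSeries_summable' (𝕂 := ℂ) ((c * (s - r : ℝ)) • a)
    have hs : Summable fun p : ℕ × ℕ => F p r := by
      refine Summable.of_norm_bounded (g := fun p : ℕ × ℕ => ‖B‖ *
        (‖(((p.1)! : ℂ)⁻¹) • ((c * r) • a) ^ p.1‖ * ‖(((p.2)! : ℂ)⁻¹) • ((c * (s - r : ℝ)) • a) ^ p.2‖))
        ((n1.mul_of_nonneg n2 (fun _ => norm_nonneg _) (fun _ => norm_nonneg _)).mul_left _) ?_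
      intro p
      rw [← mul_assoc]
      exact B.le_opNorm₂ _ _
    have hh : HasSum (fun p => F p r) (∑' p, F p r) := hs.hasSum
    have h3 : ∀ j, HasSum (fun k => F (j, k) r)
        (B ((((j)! : ℂ)⁻¹) • ((c * r) • a) ^ j) (NormedSpace.exp ((c * (s - r : ℝ)) • a))) := by
      intro j
      exact (B ((((j)! : ℂ)⁻¹) • ((c * r) • a) ^ j)).hasSum h2
    have h4 : HasSum (fun j => B ((((j)! : ℂ)⁻¹) • ((c * r) • a) ^ j) (NormedSpace.exp ((c * (s - r : ℝ)) • a)))
        (B (NormedSpace.exp ((c * r) • a)) (NormedSpace.exp ((c * (s - r : ℝ)) • a))) :=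
      (B.flip (NormedSpace.exp ((c * (s - r : ℝ)) • a))).hasSum h1
    have h5 := hh.prod_fiberwise h3
    rw [h5.unique h4] at hh
    exact hh
  have main := intervalIntegral.hasSum_integral_of_dominated_convergence (μ := volume) (a := 0) (b := s)
    (F := F) (f := fun r => B (NormedSpace.exp ((c * r) • a)) (NormedSpace.exp ((c * (s - r : ℝ)) • a)))
    (fun p _ => ‖B‖ * (g p.1 * g p.2)) (fun p => (hFc p).aestronglyMeasurable)
    (fun p => Filter.Eventually.of_forall (fun r hr => hbound p r hr))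
    (Filter.Eventually.of_forall (fun r _ => hsum2))
    (by simp) (Filter.Eventually.of_forall (fun r _ => hlim r))
  have main2 := main.const_smul c
  have hfun : ∀ p : ℕ × ℕ, ((c * s) ^ (p.1 + p.2 + 1) / ((p.1 + p.2 + 1)! : ℂ)) • B (a ^ p.1) (a ^ p.2) =
      c • ∫ r in (0:ℝ)..s, F p r := ?_
  · simpa only [hfun] using main2
  intro p
  have e : ∀ r : ℝ, F p r = ((c ^ (p.1 + p.2)) * (((r ^ p.1 / (p.1 ! : ℝ)) * ((s - r) ^ p.2 / (p.2 ! : ℝ)) : ℝ) : ℂ)) • B (a ^ p.1) (a ^ p.2) := by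
    intro r
    simp only [hF, smul_pow, map_smul, _root_.smul_apply, smul_smul]
    congr 1
    push_cast
    rw [mul_pow, mul_pow, pow_add]
    ring
  simp only [e]
  rw [intervalIntegral.integral_smul_const, intervalIntegral.integral_const_mul, intervalIntegral.integral_ofReal,
    beta_integral, smul_smul]
  congr 1
  push_cast
  ring

/-- Duhamel's formula in power series form. -/
lemma duhamel (B : L →L[ℂ] L →L[ℂ] W) (a : L) (c : ℂ) (s : ℝ) :
    HasSum (fun n : ℕ => ((c * s) ^ n / (n ! : ℂ)) • ∑ j ∈ Finset.range n, B (a ^ j) (a ^ (n - 1 - j)))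
      (c • ∫ r in (0:ℝ)..s, B (NormedSpace.exp ((c * r) • a)) (NormedSpace.exp ((c * (s - r : ℝ)) • a))) := by
  set S := (c • ∫ r in (0:ℝ)..s, B (NormedSpace.exp ((c * r) • a)) (NormedSpace.exp ((c * (s - r : ℝ)) • a)))
  have h := duhamel_prod B a c s
  have h1 := (Equiv.hasSum_iff (Finset.HasAntidiagonal.sigmaAntidiagonalEquivProd (A := ℕ))).mpr h
  have h2 := h1.sigma (fun n => hasSum_fintype _)
  have h3 : HasSum (fun n : ℕ => ((c * s) ^ (n + 1) / ((n + 1)! : ℂ)) •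
      ∑ j ∈ Finset.range (n + 1), B (a ^ j) (a ^ (n + 1 - 1 - j))) S := by
    convert! h2 using 1
    funext n
    rw [Finset.smul_sum]
    simp only [Function.comp_apply]
    have e1 : ∀ n : ℕ, ∑ p : (Finset.HasAntidiagonal.antidiagonal n), ((c * s) ^ (p.1.1 + p.1.2 + 1) / ((p.1.1 + p.1.2 + 1)! : ℂ)) • B (a ^ p.1.1) (a ^ p.1.2)
        = ∑ p ∈ Finset.HasAntidiagonal.antidiagonal n, ((c * s) ^ (p.1 + p.2 + 1) / ((p.1 + p.2 + 1)! : ℂ)) • B (a ^ p.1) (a ^ p.2) := by
      intro n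
      exact Finset.sum_coe_sort (Finset.HasAntidiagonal.antidiagonal n)
        (fun p : ℕ × ℕ => ((c * s) ^ (p.1 + p.2 + 1) / ((p.1 + p.2 + 1)! : ℂ)) • B (a ^ p.1) (a ^ p.2))
    refine Eq.trans ?_ (e1 n).symm
    rw [Finset.Nat.sum_antidiagonal_eq_sum_range_succ_mk]
    refine Finset.sum_congr rfl ?_
    intro j hj
    have hj' : j ≤ n := by simpa [Nat.lt_succ_iff] using hj
    have : j + (n - j) + 1 = n + 1 := by omega
    simp only [this, Nat.add_sub_cancel]
  have h4 := (hasSum_nat_add_iff (f := fun n : ℕ => ((c * s) ^ n / (n ! : ℂ)) •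
      ∑ j ∈ Finset.range n, B (a ^ j) (a ^ (n - 1 - j))) 1).mp h3
  simpa using h4

end

end FDQ
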