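import Pool.Agent.Helper38.FDQ.Defs
import Pool.Agent.Helper38.FDQ.Duhamel

open scoped TensorProduct InnerProductSpace Topology Nat
open Filter

namespace FDQ

noncomputable section

variable {L : Type*} [NormedAddCommGroup L] [InnerProductSpace ℂ L]

/-! ### One-parameter unitary groups -/

/-- `E a r = exp(i r a)`. -/
def E [CompleteSpace L] (a : L →L[ℂ] L) (r : ℝ) : L →L[ℂ] L := NormedSpace.exp ((Complex.I * r) • a)

section E
variable [CompleteSpace L] (a : L →L[ℂ] L)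

lemma hasSum_exp_smul (z : ℂ) :
    HasSum (fun n : ℕ => (z ^ n / (n ! : ℂ)) • a ^ n) (NormedSpace.exp (z • a)) := by
  have h := NormedSpace.exp_series_hasSum_exp' (𝕂 := ℂ) (z • a)
  convert! h using 1
  funext n
  rw [smul_pow, smul_smul]
  congr 1
  rw [div_eq_inv_mul]

lemma E_zero : E a 0 = 1 := by simp [E]

lemma E_add (r s : ℝ) : E a (r + s) = E a r * E a s := by
  let +nondep : NormedAlgebra ℚ (L →L[ℂ] L) := .restrictScalars ℚ ℂ (L →L[ℂ] L)
  unfold E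
  rw [← NormedSpace.exp_add_of_commute]
  · congr 1
    rw [← add_smul]
    push_cast
    ring_nf
  · exact ((Commute.refl a).smul_left _).smul_right _

lemma E_apply_add (r s : ℝ) (ξ : L) : E a (r + s) ξ = E a r (E a s ξ) := by
  rw [E_add]; rfl

lemma continuous_E : Continuous (E a) := by
  let +nondep : NormedAlgebra ℚ (L →L[ℂ] L) := .restrictScalars ℚ ℂ (L →L[ℂ] L)
  unfold E
  have h1 : Continuous fun r : ℝ => (Complex.I * r) • a := by fun_prop
  exact NormedSpace.exp_continuous.comp h1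

lemma continuous_E_apply (ξ : L) : Continuous fun r => E a r ξ :=
  (continuous_E a).clm_apply continuous_const

variable {a}

lemma star_E (ha : IsSelfAdjoint a) (r : ℝ) : star (E a r) = E a (-r) := by
  let +nondep : NormedAlgebra ℚ (L →L[ℂ] L) := .restrictScalars ℚ ℂ (L →L[ℂ] L)
  unfold E
  rw [NormedSpace.star_exp]
  congr 1
  rw [star_smul, ha.star_eq]
  congr 1
  simp

lemma inner_E_left (ha : IsSelfAdjoint a) (r : ℝ) (ξ η : L) : ⟪E a r ξ, η⟫_ℂ = ⟪ξ, E a (-r) η⟫_ℂ := by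
  rw [← star_E ha, ContinuousLinearMap.star_eq_adjoint, ContinuousLinearMap.adjoint_inner_right]

lemma inner_E_right (ha : IsSelfAdjoint a) (r : ℝ) (ξ η : L) : ⟪ξ, E a r η⟫_ℂ = ⟪E a (-r) ξ, η⟫_ℂ := by
  rw [inner_E_left ha, neg_neg]

lemma norm_E_apply (ha : IsSelfAdjoint a) (r : ℝ) (ξ : L) : ‖E a r ξ‖ = ‖ξ‖ := by
  have h : ⟪E a r ξ, E a r ξ⟫_ℂ = ⟪ξ, ξ⟫_ℂ := by
    rw [inner_E_left ha, ← E_apply_add, neg_add_cancel, E_zero]; rfl
  rw [inner_self_eq_norm_sq_to_K, inner_self_eq_norm_sq_to_K] at h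
  have h2 : ‖E a r ξ‖ ^ 2 = ‖ξ‖ ^ 2 := by exact_mod_cast h
  exact (sq_eq_sq₀ (norm_nonneg _) (norm_nonneg _)).mp h2

end E

/-! ### Elementary tensors in the completed tensor product -/

/-- `ξ ⊗ η` in `L ⊗̄ L`. -/
def tt (ξ η : L) : HT L := ((ξ ⊗ₜ[ℂ] η : L ⊗[ℂ] L) : HT L)

/-- The continuous bilinear map `(ξ, η) ↦ ξ ⊗ η`. -/
def ttL : L →L[ℂ] L →L[ℂ] HT L :=
  (ContinuousLinearMap.compL ℂ L (L ⊗[ℂ] L) (HT L)
    (UniformSpace.Completion.toComplL (𝕜 := ℂ) (E := L ⊗[ℂ] L))) ∘L (TensorProduct.mkL ℂ L L)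

lemma ttL_apply (ξ η : L) : ttL ξ η = tt ξ η := rfl

lemma inner_tt (a b c d : L) : ⟪tt a b, tt c d⟫_ℂ = ⟪a, c⟫_ℂ * ⟪b, d⟫_ℂ := by
  unfold tt
  rw [UniformSpace.Completion.inner_coe, TensorProduct.inner_tmul]

lemma vv_tmul {m : ℕ} (v : Poly m →ₗ[ℂ] L) (p q : Poly m) : vv v (p ⊗ₜ[ℂ] q) = tt (v p) (v q) := rfl

/-! ### Free difference quotients of powers -/

lemma fdq_pow {m : ℕ} (i : Fin m) (n : ℕ) :
    fdq i ((X i : Poly m) ^ n) = ∑ j ∈ Finset.range n, ((X i : Poly m) ^ j) ⊗ₜ[ℂ] ((X i : Poly m) ^ (n - 1 - j)) := by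
  induction n with
  | zero => simp [fdq_one]
  | succ n ih =>
    rw [pow_succ, fdq_mul, ih, fdq_X, if_pos rfl, Finset.sum_range_succ, Finset.sum_mul, add_comm]
    congr 1
    · refine Finset.sum_congr rfl fun j hj => ?_
      have hj' := Finset.mem_range.mp hj
      rw [Algebra.TensorProduct.tmul_mul_tmul, mul_one, ← pow_succ]
      congr 2
      omega
    · rw [Algebra.TensorProduct.tmul_mul_tmul, mul_one, mul_one]
      simp

lemma fdq_pow_ne {m : ℕ} {i k : Fin m} (h : i ≠ k) (n : ℕ) :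
    fdq k ((X i : Poly m) ^ n) = 0 := by
  induction n with
  | zero => simp [fdq_one]
  | succ n ih => rw [pow_succ, fdq_mul, ih, fdq_X, if_neg h, mul_zero, zero_mul, add_zero]

end

end FDQ
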