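import Pool.Agent.Helper38.FDQ.Core1

open scoped TensorProduct InnerProductSpace Topology Nat
open Filter

namespace FDQ

noncomputable section

variable {m : ℕ} {L : Type*} [NormedAddCommGroup L] [InnerProductSpace ℂ L] [CompleteSpace L]

/-- The standing assumptions: `Ω` is a unit vector, the `x_i` are self-adjoint and `⟨Ω, · Ω⟩` is
tracial on polynomials in the `x_i`. -/
structure IsTuple (x : Fin m → L →L[ℂ] L) (Ω : L) : Prop where
  norm : ‖Ω‖ = 1
  sa : ∀ i, IsSelfAdjoint (x i)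
  tr : ∀ p q : Poly m, ⟪Ω, ev x (p * q) Ω⟫_ℂ = ⟪Ω, ev x (q * p) Ω⟫_ℂ

/-- The norm closed algebra generated by the tuple. -/
def Alg (x : Fin m → L →L[ℂ] L) : Subalgebra ℂ (L →L[ℂ] L) := (ev x).range.topologicalClosure

variable {x : Fin m → L →L[ℂ] L} {Ω : L}

omit [CompleteSpace L] in
lemma ev_X (i : Fin m) : ev x (X i) = x i := by simp [ev, X]

lemma ev_mem (p : Poly m) : ev x p ∈ Alg x :=
  (ev x).range.le_topologicalClosure ⟨p, rfl⟩

lemma E_mem (i : Fin m) (r : ℝ) : E (x i) r ∈ Alg x := by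
  have h := hasSum_exp_smul (x i) (Complex.I * r)
  have hc : IsClosed (Alg x : Set (L →L[ℂ] L)) := Subalgebra.isClosed_topologicalClosure _
  refine hc.mem_of_tendsto h.tendsto_sum_nat (Eventually.of_forall fun N => ?_)
  refine (Alg x).sum_mem fun n _ => (Alg x).smul_mem ?_ _
  rw [← ev_X (x := x), ← map_pow]
  exact ev_mem _

lemma exists_star (hx : ∀ i, IsSelfAdjoint (x i)) (p : Poly m) : ∃ q : Poly m, ev x q = star (ev x p) := by
  induction p using FreeAlgebra.induction with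
  | grade0 r =>
    refine ⟨algebraMap ℂ _ (star r), ?_⟩
    rw [AlgHom.commutes, AlgHom.commutes, algebraMap_star_comm]
  | grade1 j =>
    refine ⟨X j, ?_⟩
    change _ = star (ev x (X j))
    rw [ev_X, (hx j).star_eq]
  | mul a b ha hb =>
    obtain ⟨q, hq⟩ := ha
    obtain ⟨q', hq'⟩ := hb
    exact ⟨q' * q, by rw [map_mul, map_mul, star_mul, hq, hq']⟩
  | add a b ha hb =>
    obtain ⟨q, hq⟩ := ha
    obtain ⟨q', hq'⟩ := hb
    exact ⟨q + q', by rw [map_add, map_add, star_add, hq, hq']⟩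

lemma star_ev_mem (hx : ∀ i, IsSelfAdjoint (x i)) (p : Poly m) : star (ev x p) ∈ Alg x := by
  obtain ⟨q, hq⟩ := exists_star hx p
  rw [← hq]; exact ev_mem q

/-- The trace property on the norm closure. -/
lemma trace_comm (h : IsTuple x Ω) {S T : L →L[ℂ] L} (hS : S ∈ Alg x) (hT : T ∈ Alg x) :
    ⟪Ω, S (T Ω)⟫_ℂ = ⟪Ω, T (S Ω)⟫_ℂ := by
  have hcl : IsClosed {P : (L →L[ℂ] L) × (L →L[ℂ] L) | ⟪Ω, P.1 (P.2 Ω)⟫_ℂ = ⟪Ω, P.2 (P.1 Ω)⟫_ℂ} := by
    apply isClosed_eq
    · exact continuous_const.inner (continuous_fst.clm_apply (continuous_snd.clm_apply continuous_const))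
    · exact continuous_const.inner (continuous_snd.clm_apply (continuous_fst.clm_apply continuous_const))
  have hsub : (Set.range (ev x)) ×ˢ (Set.range (ev x)) ⊆
      {P : (L →L[ℂ] L) × (L →L[ℂ] L) | ⟪Ω, P.1 (P.2 Ω)⟫_ℂ = ⟪Ω, P.2 (P.1 Ω)⟫_ℂ} := by
    rintro ⟨_, _⟩ ⟨⟨p, rfl⟩, ⟨q, rfl⟩⟩
    have := h.tr p q
    rw [map_mul, map_mul] at this
    exact this
  have hcl2 := closure_minimal hsub hcl
  rw [closure_prod_eq] at hcl2
  have : (S, T) ∈ closure (Set.range (ev x)) ×ˢ closure (Set.range (ev x)) := ⟨hS, hT⟩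
  exact hcl2 this

lemma norm_ev_E (h : IsTuple x Ω) (i : Fin m) (r : ℝ) (p : Poly m) :
    ‖ev x p (E (x i) r Ω)‖ = ‖ev x p Ω‖ := by
  have h1 : ⟪ev x p (E (x i) r Ω), ev x p (E (x i) r Ω)⟫_ℂ = ⟪ev x p Ω, ev x p Ω⟫_ℂ := by
    rw [← ContinuousLinearMap.adjoint_inner_right, ← ContinuousLinearMap.star_eq_adjoint,
      inner_E_left (h.sa i)]
    have h2 := trace_comm h (E_mem (x := x) i (-r))
      ((Alg x).mul_mem ((Alg x).mul_mem (star_ev_mem h.sa p) (ev_mem p)) (E_mem (x := x) i r))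
    simp only [mul_apply_eq_comp] at h2
    rw [h2, ← E_apply_add, add_neg_cancel, E_zero, ContinuousLinearMap.star_eq_adjoint,
      ContinuousLinearMap.adjoint_inner_right]
    rfl
  rw [inner_self_eq_norm_sq_to_K, inner_self_eq_norm_sq_to_K] at h1
  have h2 : ‖ev x p (E (x i) r Ω)‖ ^ 2 = ‖ev x p Ω‖ ^ 2 := by exact_mod_cast h1
  exact (sq_eq_sq₀ (norm_nonneg _) (norm_nonneg _)).mp h2

lemma trace_EYE (h : IsTuple x Ω) (i : Fin m) (r q : ℝ) (p : Poly m) :
    ⟪Ω, E (x i) r (ev x p (E (x i) q Ω))⟫_ℂ = ⟪Ω, E (x i) q (E (x i) r (ev x p Ω))⟫_ℂ := by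
  have h2 := trace_comm h ((Alg x).mul_mem (E_mem (x := x) i r) (ev_mem p)) (E_mem (x := x) i q)
  simp only [mul_apply_eq_comp] at h2
  exact h2

/-! ### Inner products of tensors -/

omit [CompleteSpace L] in
lemma evΩ_apply (p : Poly m) : evΩ x Ω p = ev x p Ω := rfl

omit [CompleteSpace L] in
lemma evΩ_mul (p q : Poly m) : evΩ x Ω (p * q) = ev x p (evΩ x Ω q) := by
  simp [evΩ_apply]

/-- left multiplication in the first leg -/
lemma inner_tt_left (ξ η : L) (p : Poly m) (z : Poly m ⊗[ℂ] Poly m) :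
    ⟪tt ξ η, vv (evΩ x Ω) ((p ⊗ₜ[ℂ] 1) * z)⟫_ℂ = ⟪tt (star (ev x p) ξ) η, vv (evΩ x Ω) z⟫_ℂ := by
  induction z using TensorProduct.induction_on with
  | zero => simp
  | tmul a b =>
    rw [Algebra.TensorProduct.tmul_mul_tmul, one_mul, vv_tmul, vv_tmul, inner_tt, inner_tt, evΩ_mul,
      ContinuousLinearMap.star_eq_adjoint, ContinuousLinearMap.adjoint_inner_left]
  | add a b ha hb => rw [mul_add, map_add, map_add, inner_add_right, inner_add_right, ha, hb]

/-- right multiplication in the second leg, with the trace vector in the second leg -/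
lemma inner_tt_right (h : IsTuple x Ω) (ξ : L) (p : Poly m) (z : Poly m ⊗[ℂ] Poly m) :
    ⟪tt ξ Ω, vv (evΩ x Ω) (z * (1 ⊗ₜ[ℂ] p))⟫_ℂ = ⟪tt ξ (star (ev x p) Ω), vv (evΩ x Ω) z⟫_ℂ := by
  induction z using TensorProduct.induction_on with
  | zero => simp
  | tmul a b =>
    rw [Algebra.TensorProduct.tmul_mul_tmul, mul_one, vv_tmul, vv_tmul, inner_tt, inner_tt]
    congr 1
    rw [ContinuousLinearMap.star_eq_adjoint, ContinuousLinearMap.adjoint_inner_left]
    have := h.tr b p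
    rw [map_mul, map_mul] at this
    rw [evΩ_apply, map_mul]
    exact this
  | add a b ha hb => rw [add_mul, map_add, map_add, inner_add_right, inner_add_right, ha, hb]

lemma star_ev_X_pow (hx : ∀ i, IsSelfAdjoint (x i)) (i : Fin m) (n : ℕ) :
    star (ev x (X i ^ n)) = (x i) ^ n := by
  rw [map_pow, ev_X, star_pow, (hx i).star_eq]

end

end FDQ
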