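import Pool.Agent.Helper38.FDQ.Core2

open scoped TensorProduct InnerProductSpace Topology Nat
open Filter

namespace FDQ

noncomputable section

variable {m : ℕ} {L : Type*} [NormedAddCommGroup L] [InnerProductSpace ℂ L] [CompleteSpace L]
variable {x : Fin m → L →L[ℂ] L} {Ω : L}

/-- `χ(r) = τ(exp(i r a))`. -/
def chi (a : L →L[ℂ] L) (Ω : L) (r : ℝ) : ℂ := ⟪Ω, E a r Ω⟫_ℂ

/-- `A(r) = ∫₀^r χ(q) exp(-i q a) Ω dq`. -/
def AA (a : L →L[ℂ] L) (Ω : L) (r : ℝ) : L := ∫ q in (0:ℝ)..r, chi a Ω q • E a (-q) Ω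

lemma continuous_chi (a : L →L[ℂ] L) (Ω : L) : Continuous (chi a Ω) :=
  continuous_const.inner (continuous_E_apply a Ω)

lemma chi_neg {a : L →L[ℂ] L} (ha : IsSelfAdjoint a) (Ω : L) (r : ℝ) :
    chi a Ω (-r) = (starRingEnd ℂ) (chi a Ω r) := by
  unfold chi
  rw [inner_conj_symm, inner_E_left ha]

lemma continuous_AA_integrand (a : L →L[ℂ] L) (Ω : L) :
    Continuous fun q : ℝ => chi a Ω q • E a (-q) Ω :=
  (continuous_chi a Ω).smul ((continuous_E_apply a Ω).comp continuous_neg)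

lemma inner_intervalIntegral_right {f : ℝ → L} (hf : Continuous f) (z : L) (a b : ℝ) :
    ⟪z, ∫ q in a..b, f q⟫_ℂ = ∫ q in a..b, ⟪z, f q⟫_ℂ := by
  have := (innerSL ℂ z).intervalIntegral_comp_comm (hf.intervalIntegrable (μ := MeasureTheory.volume) a b)
  simpa using this.symm

lemma inner_intervalIntegral_left {f : ℝ → L} (hf : Continuous f) (z : L) (a b : ℝ) :
    ⟪∫ q in a..b, f q, z⟫_ℂ = ∫ q in a..b, ⟪f q, z⟫_ℂ := by
  rw [← inner_conj_symm, inner_intervalIntegral_right hf]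
  have := (Complex.conjCLE : ℂ →L[ℝ] ℂ).intervalIntegral_comp_comm
    (((continuous_const (y := z)).inner (𝕜 := ℂ) hf).intervalIntegrable (μ := MeasureTheory.volume) a b)
  simp only [ContinuousLinearEquiv.coe_coe, Complex.conjCLE_apply] at this
  rw [← this]
  congr 1
  funext q
  rw [inner_conj_symm]

lemma inner_AA {a : L →L[ℂ] L} (ha : IsSelfAdjoint a) (Ω : L) (r : ℝ) (z : L) :
    ⟪AA a Ω r, z⟫_ℂ = ∫ q in (0:ℝ)..r, chi a Ω (-q) * ⟪E a (-q) Ω, z⟫_ℂ := by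
  unfold AA
  rw [inner_intervalIntegral_left (continuous_AA_integrand a Ω)]
  congr 1
  funext q
  rw [inner_smul_left, chi_neg ha]

/-- the product of two linear functionals `S ↦ ⟨u, Y (S w)⟩`, `T ↦ ⟨u', Y' (T w')⟩` as a bilinear map. -/
def bil (f g : (L →L[ℂ] L) →L[ℂ] ℂ) : (L →L[ℂ] L) →L[ℂ] (L →L[ℂ] L) →L[ℂ] ℂ :=
  ((ContinuousLinearMap.mul ℂ ℂ).bilinearComp f g)

lemma bil_apply (f g : (L →L[ℂ] L) →L[ℂ] ℂ) (S T : L →L[ℂ] L) : bil f g S T = f S * g T := by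
  simp [bil]

/-- the functional `S ↦ ⟨u, Y (S w)⟩` -/
def fnl (u : L) (Y : L →L[ℂ] L) (w : L) : (L →L[ℂ] L) →L[ℂ] ℂ :=
  (innerSL ℂ u) ∘L Y ∘L (ContinuousLinearMap.apply ℂ L w)

omit [CompleteSpace L] in
lemma fnl_apply (u : L) (Y : L →L[ℂ] L) (w : L) (S : L →L[ℂ] L) : fnl u Y w S = ⟪u, Y (S w)⟫_ℂ := by
  simp [fnl]

omit [CompleteSpace L] in
lemma ev_pow (i : Fin m) (n : ℕ) : ev x (X i ^ n) = (x i) ^ n := by rw [map_pow, ev_X]

omit [CompleteSpace L] in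
lemma evΩ_pow (i : Fin m) (n : ℕ) : evΩ x Ω (X i ^ n) = ((x i) ^ n) Ω := by rw [evΩ_apply, ev_pow]

/-- Conjugate relations. -/
def IsConj (x : Fin m → L →L[ℂ] L) (Ω : L) (i : Fin m) (J : L) : Prop :=
  ∀ p : Poly m, ⟪J, evΩ x Ω p⟫_ℂ = ⟪tt Ω Ω, vv (evΩ x Ω) (fdq i p)⟫_ℂ

lemma hasSum_E (a : L →L[ℂ] L) (r : ℝ) :
    HasSum (fun n : ℕ => ((Complex.I * r) ^ n / (n ! : ℂ)) • a ^ n) (E a r) :=
  hasSum_exp_smul a _

lemma E_neg_eq (a : L →L[ℂ] L) (r : ℝ) : NormedSpace.exp (((-Complex.I) * r) • a) = E a (-r) := by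
  unfold E
  congr 2
  push_cast
  ring

lemma hasSum_E_neg (a : L →L[ℂ] L) (r : ℝ) :
    HasSum (fun n : ℕ => ((-Complex.I * r) ^ n / (n ! : ℂ)) • a ^ n) (E a (-r)) := by
  rw [← E_neg_eq]
  exact hasSum_exp_smul a _

lemma conj_coeff (r : ℝ) (n : ℕ) : (starRingEnd ℂ) ((Complex.I * r) ^ n / (n ! : ℂ)) = (-Complex.I * r) ^ n / (n ! : ℂ) := by
  rw [map_div₀, map_pow, map_mul, Complex.conj_I, Complex.conj_ofReal, Complex.conj_natCast]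

lemma hasSum_inner_left {K : Type*} [NormedAddCommGroup K] [InnerProductSpace ℂ K] {f : ℕ → K} {s : K}
    (hf : HasSum f s) (z : K) : HasSum (fun n => ⟪f n, z⟫_ℂ) ⟪s, z⟫_ℂ := by
  have h1 : HasSum (fun n => ⟪z, f n⟫_ℂ) ⟪z, s⟫_ℂ := (innerSL ℂ z).hasSum hf
  have h2 := h1.star
  simp only [← starRingEnd_apply, inner_conj_symm] at h2
  exact h2

lemma exp_neg_sub (a : L →L[ℂ] L) (r q : ℝ) :
    NormedSpace.exp ((-Complex.I * (r - q : ℝ)) • a) = E a q * E a (-r) := by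
  rw [E_neg_eq, ← E_add]
  congr 1
  ring

/-- First product formula. -/
lemma prod1 (h : IsTuple x Ω) {i : Fin m} {J : L} (hJ : IsConj x Ω i J) (p : Poly m) (r : ℝ) :
    ⟪J, E (x i) (-r) (evΩ x Ω p)⟫_ℂ = -Complex.I * ⟪AA (x i) Ω r, E (x i) (-r) (evΩ x Ω p)⟫_ℂ +
      ⟪tt (E (x i) r Ω) Ω, vv (evΩ x Ω) (fdq i p)⟫_ℂ := by
  -- left-hand side
  have S1 : HasSum (fun n : ℕ => ((-Complex.I * r) ^ n / (n ! : ℂ)) * ⟪J, ((x i) ^ n) (evΩ x Ω p)⟫_ℂ)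
      ⟪J, E (x i) (-r) (evΩ x Ω p)⟫_ℂ := by
    have := (fnl J 1 (evΩ x Ω p)).hasSum (hasSum_E_neg (x i) r)
    simpa [fnl_apply, inner_smul_right] using this
  have S2 := duhamel (bil (fnl Ω 1 Ω) (fnl Ω 1 (evΩ x Ω p))) (x i) (-Complex.I) r
  have S3 : HasSum (fun n : ℕ => ((-Complex.I * r) ^ n / (n ! : ℂ)) * ⟪tt (((x i) ^ n) Ω) Ω, vv (evΩ x Ω) (fdq i p)⟫_ℂ)
      ⟪tt (E (x i) r Ω) Ω, vv (evΩ x Ω) (fdq i p)⟫_ℂ := by
    have h1 := (((ttL (L := L)).flip Ω) ∘L (ContinuousLinearMap.apply ℂ L Ω)).hasSum (hasSum_E (x i) r)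
    have h2 := hasSum_inner_left h1 (vv (evΩ x Ω) (fdq i p))
    convert! h2 using 1
    funext n
    rw [← conj_coeff, ← inner_smul_left]
    congr 1
    simp [ttL_apply]
  have hterm : ∀ n : ℕ, ⟪J, ((x i) ^ n) (evΩ x Ω p)⟫_ℂ =
      (∑ j ∈ Finset.range n, (bil (fnl Ω 1 Ω) (fnl Ω 1 (evΩ x Ω p))) ((x i) ^ j) ((x i) ^ (n - 1 - j))) +
      ⟪tt (((x i) ^ n) Ω) Ω, vv (evΩ x Ω) (fdq i p)⟫_ℂ := by
    intro n
    have h1 := hJ (X i ^ n * p)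
    rw [evΩ_mul, map_pow, ev_X] at h1
    rw [h1, fdq_mul, map_add, inner_add_right, inner_tt_left, star_ev_X_pow h.sa, add_comm]
    congr 1
    rw [fdq_pow, Finset.sum_mul, map_sum, inner_sum]
    refine Finset.sum_congr rfl fun j _ => ?_
    rw [Algebra.TensorProduct.tmul_mul_tmul, mul_one, vv_tmul, inner_tt, evΩ_mul, evΩ_pow, ev_pow,
      bil_apply, fnl_apply, fnl_apply]
    rfl
  have hint : (-Complex.I) • ∫ q in (0:ℝ)..r, (bil (fnl Ω 1 Ω) (fnl Ω 1 (evΩ x Ω p)))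
      (NormedSpace.exp ((-Complex.I * q) • (x i))) (NormedSpace.exp ((-Complex.I * (r - q : ℝ)) • (x i))) =
      -Complex.I * ⟪AA (x i) Ω r, E (x i) (-r) (evΩ x Ω p)⟫_ℂ := by
    rw [inner_AA (h.sa i), smul_eq_mul]
    congr 1
    congr 1
    funext q
    rw [bil_apply, fnl_apply, fnl_apply, E_neg_eq, exp_neg_sub, inner_E_left (h.sa i), neg_neg]
    rfl
  rw [hint] at S2
  have S4 := S2.add S3
  refine S1.unique ?_
  convert! S4 using 1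
  funext n
  rw [hterm n, smul_eq_mul, mul_add]

/-- Second product formula. -/
lemma prod2 (h : IsTuple x Ω) {i : Fin m} {J : L} (hJ : IsConj x Ω i J) (p : Poly m) (r r' : ℝ) :
    ⟪J, E (x i) (-r) (ev x p (E (x i) (-r') Ω))⟫_ℂ =
      -Complex.I * ⟪AA (x i) Ω r, E (x i) (-r) (ev x p (E (x i) (-r') Ω))⟫_ℂ +
      ⟪tt (E (x i) r Ω) (E (x i) r' Ω), vv (evΩ x Ω) (fdq i p)⟫_ℂ
      -Complex.I * ⟪AA (x i) Ω r', E (x i) (-(r + r')) (evΩ x Ω p)⟫_ℂ := by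
  have S1 : HasSum (fun n : ℕ => ((-Complex.I * r') ^ n / (n ! : ℂ)) *
      ⟪J, E (x i) (-r) (ev x p (((x i) ^ n) Ω))⟫_ℂ) ⟪J, E (x i) (-r) (ev x p (E (x i) (-r') Ω))⟫_ℂ := by
    have := (fnl J (E (x i) (-r) * ev x p) Ω).hasSum (hasSum_E_neg (x i) r')
    simpa [fnl_apply, inner_smul_right] using this
  have S1' : HasSum (fun n : ℕ => ((-Complex.I * r') ^ n / (n ! : ℂ)) *
      ⟪AA (x i) Ω r, E (x i) (-r) (ev x p (((x i) ^ n) Ω))⟫_ℂ)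
      ⟪AA (x i) Ω r, E (x i) (-r) (ev x p (E (x i) (-r') Ω))⟫_ℂ := by
    have := (fnl (AA (x i) Ω r) (E (x i) (-r) * ev x p) Ω).hasSum (hasSum_E_neg (x i) r')
    simpa [fnl_apply, inner_smul_right] using this
  have S2 := duhamel (bil (fnl (E (x i) r Ω) (ev x p) Ω) (fnl Ω 1 Ω)) (x i) (-Complex.I) r'
  have S3 : HasSum (fun n : ℕ => ((-Complex.I * r') ^ n / (n ! : ℂ)) *
      ⟪tt (E (x i) r Ω) (((x i) ^ n) Ω), vv (evΩ x Ω) (fdq i p)⟫_ℂ)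
      ⟪tt (E (x i) r Ω) (E (x i) r' Ω), vv (evΩ x Ω) (fdq i p)⟫_ℂ := by
    have h1 := (((ttL (L := L)) (E (x i) r Ω)) ∘L (ContinuousLinearMap.apply ℂ L Ω)).hasSum (hasSum_E (x i) r')
    have h2 := hasSum_inner_left h1 (vv (evΩ x Ω) (fdq i p))
    convert! h2 using 1
    funext n
    rw [← conj_coeff, ← inner_smul_left]
    congr 1
    simp [ttL_apply]
  have hterm : ∀ n : ℕ, ⟪J, E (x i) (-r) (ev x p (((x i) ^ n) Ω))⟫_ℂ =
      -Complex.I * ⟪AA (x i) Ω r, E (x i) (-r) (ev x p (((x i) ^ n) Ω))⟫_ℂ +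
      ⟪tt (E (x i) r Ω) (((x i) ^ n) Ω), vv (evΩ x Ω) (fdq i p)⟫_ℂ +
      (∑ j ∈ Finset.range n, (bil (fnl (E (x i) r Ω) (ev x p) Ω) (fnl Ω 1 Ω)) ((x i) ^ j) ((x i) ^ (n - 1 - j))) := by
    intro n
    have h1 := prod1 h hJ (p * X i ^ n) r
    rw [evΩ_mul, evΩ_pow] at h1
    rw [h1, fdq_mul, map_add, inner_add_right, inner_tt_right h, star_ev_X_pow h.sa, add_assoc]
    congr 1
    rw [add_comm]
    congr 1
    rw [fdq_pow, Finset.mul_sum, map_sum, inner_sum]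
    refine Finset.sum_congr rfl fun j _ => ?_
    rw [Algebra.TensorProduct.tmul_mul_tmul, one_mul, vv_tmul, inner_tt, evΩ_mul, evΩ_pow, evΩ_pow,
      bil_apply, fnl_apply, fnl_apply]
    rfl
  have hint : (-Complex.I) • ∫ q in (0:ℝ)..r', (bil (fnl (E (x i) r Ω) (ev x p) Ω) (fnl Ω 1 Ω))
      (NormedSpace.exp ((-Complex.I * q) • (x i))) (NormedSpace.exp ((-Complex.I * (r' - q : ℝ)) • (x i))) =
      -Complex.I * ⟪AA (x i) Ω r', E (x i) (-(r + r')) (evΩ x Ω p)⟫_ℂ := by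
    rw [inner_AA (h.sa i), smul_eq_mul]
    congr 1
    have e := intervalIntegral.integral_comp_sub_left (a := 0) (b := r')
      (fun q : ℝ => chi (x i) Ω (-q) * ⟪E (x i) (-q) Ω, E (x i) (-(r + r')) (evΩ x Ω p)⟫_ℂ) r'
    rw [sub_self, sub_zero] at e
    rw [← e]
    congr 1
    funext q
    rw [bil_apply, fnl_apply, fnl_apply, E_neg_eq, E_neg_eq, mul_comm]
    congr 1
    rw [inner_E_left (h.sa i), inner_E_left (h.sa i), neg_neg, trace_EYE h, ← E_apply_add, ← E_apply_add, evΩ_apply]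
    congr 2
    ring_nf
  rw [hint] at S2
  have S4 := ((S1'.mul_left (-Complex.I)).add S3).add S2
  have S5 : HasSum (fun n : ℕ => ((-Complex.I * r') ^ n / (n ! : ℂ)) *
      ⟪J, E (x i) (-r) (ev x p (((x i) ^ n) Ω))⟫_ℂ)
      (-Complex.I * ⟪AA (x i) Ω r, E (x i) (-r) (ev x p (E (x i) (-r') Ω))⟫_ℂ +
      ⟪tt (E (x i) r Ω) (E (x i) r' Ω), vv (evΩ x Ω) (fdq i p)⟫_ℂ +
      -Complex.I * ⟪AA (x i) Ω r', E (x i) (-(r + r')) (evΩ x Ω p)⟫_ℂ) := by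
    convert! S4 using 1
    funext n
    rw [hterm n, smul_eq_mul]
    ring
  rw [S1.unique S5]
  ring

end

end FDQ
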