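import Pool.Agent.Helper38.FDQ.Core3

open scoped TensorProduct InnerProductSpace Topology Nat
open Filter MeasureTheory

namespace FDQ

noncomputable section

variable {m : ℕ} {L : Type*} [NormedAddCommGroup L] [InnerProductSpace ℂ L] [CompleteSpace L]
variable {x : Fin m → L →L[ℂ] L} {Ω : L}

omit [CompleteSpace L] in
lemma evΩ_one : evΩ x Ω 1 = Ω := by simp [evΩ_apply]

lemma inner_AA_E (h : IsTuple x Ω) {i : Fin m} {J : L} (hJ : IsConj x Ω i J) (r : ℝ) :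
    ⟪AA (x i) Ω r, E (x i) (-r) Ω⟫_ℂ = Complex.I * ⟪J, E (x i) (-r) Ω⟫_ℂ := by
  have h1 := prod1 h hJ 1 r
  rw [fdq_one, map_zero, inner_zero_right, add_zero, evΩ_one] at h1
  rw [h1, ← mul_assoc]
  simp

lemma hasDerivAt_AA (a : L →L[ℂ] L) (Ω : L) (r : ℝ) :
    HasDerivAt (AA a Ω) (chi a Ω r • E a (-r) Ω) r :=
  ((continuous_AA_integrand a Ω).integral_hasStrictDerivAt 0 r).hasDerivAt

lemma norm_AA_sq (h : IsTuple x Ω) {i : Fin m} {J : L} (hJ : IsConj x Ω i J) (r : ℝ) :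
    ⟪AA (x i) Ω r, AA (x i) Ω r⟫_ℂ = Complex.I * ⟪J, AA (x i) Ω r⟫_ℂ - Complex.I * ⟪AA (x i) Ω r, J⟫_ℂ := by
  set A := AA (x i) Ω with hA
  set A' : ℝ → L := fun r => chi (x i) Ω r • E (x i) (-r) Ω with hA'
  have hd : ∀ r, HasDerivAt A (A' r) r := fun r => hasDerivAt_AA (x i) Ω r
  have e1 : ∀ r, ⟪A r, A' r⟫_ℂ = Complex.I * ⟪J, A' r⟫_ℂ := by
    intro r
    rw [hA', inner_smul_right, inner_smul_right, inner_AA_E h hJ]
    ring
  have e2 : ∀ r, ⟪A' r, A r⟫_ℂ = - (Complex.I * ⟪A' r, J⟫_ℂ) := by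
    intro r
    rw [← inner_conj_symm, e1, map_mul, inner_conj_symm, Complex.conj_I]
    ring
  have hD : ∀ r, HasDerivAt (fun r => ⟪A r, A r⟫_ℂ - Complex.I * ⟪J, A r⟫_ℂ + Complex.I * ⟪A r, J⟫_ℂ) 0 r := by
    intro r
    have d1 := (hd r).inner ℂ (hd r)
    have d2 := ((hasDerivAt_const r J).inner ℂ (hd r)).const_mul Complex.I
    have d3 := ((hd r).inner ℂ (hasDerivAt_const r J)).const_mul Complex.I
    convert! (d1.sub d2).add d3 using 1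
    rw [e1, e2]
    simp
  have hc := is_const_of_deriv_eq_zero (f := fun r => ⟪A r, A r⟫_ℂ - Complex.I * ⟪J, A r⟫_ℂ + Complex.I * ⟪A r, J⟫_ℂ)
    (fun r => (hD r).differentiableAt) (fun r => (hD r).deriv) r 0
  have h0 : A 0 = 0 := by simp [hA, AA]
  simp only [h0, inner_zero_left, inner_zero_right, mul_zero, sub_zero, add_zero] at hc
  linear_combination hc

lemma norm_AA_le (h : IsTuple x Ω) {i : Fin m} {J : L} (hJ : IsConj x Ω i J) (r : ℝ) :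
    ‖AA (x i) Ω r‖ ≤ 2 * ‖J‖ := by
  have h1 := norm_AA_sq h hJ r
  set A := AA (x i) Ω r
  have h2 : ‖A‖ ^ 2 ≤ 2 * ‖J‖ * ‖A‖ := by
    have e1 : ‖⟪A, A⟫_ℂ‖ = ‖A‖ ^ 2 := by
      rw [inner_self_eq_norm_sq_to_K]; simp
    rw [← e1, h1]
    calc ‖Complex.I * ⟪J, A⟫_ℂ - Complex.I * ⟪A, J⟫_ℂ‖ ≤ ‖Complex.I * ⟪J, A⟫_ℂ‖ + ‖Complex.I * ⟪A, J⟫_ℂ‖ := norm_sub_le _ _
      _ ≤ ‖J‖ * ‖A‖ + ‖A‖ * ‖J‖ := by
        rw [norm_mul, norm_mul, Complex.norm_I, one_mul, one_mul]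
        exact add_le_add (norm_inner_le_norm _ _) (norm_inner_le_norm _ _)
      _ = _ := by ring
  by_contra hcon
  push Not at hcon
  have hA : 0 < ‖A‖ := lt_of_le_of_lt (by positivity) hcon
  nlinarith

lemma bound5 (h : IsTuple x Ω) {i : Fin m} {J : L} (hJ : IsConj x Ω i J) (p : Poly m) (r r' : ℝ) :
    ‖⟪tt (E (x i) r Ω) (E (x i) r' Ω), vv (evΩ x Ω) (fdq i p)⟫_ℂ‖ ≤ 5 * ‖J‖ * ‖evΩ x Ω p‖ := by
  have h1 := prod2 h hJ p r r'
  have n0 : ‖E (x i) (-r) (ev x p (E (x i) (-r') Ω))‖ = ‖evΩ x Ω p‖ := by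
    rw [norm_E_apply (h.sa i), norm_ev_E h]; rfl
  have n1 : ‖⟪J, E (x i) (-r) (ev x p (E (x i) (-r') Ω))⟫_ℂ‖ ≤ ‖J‖ * ‖evΩ x Ω p‖ :=
    n0 ▸ norm_inner_le_norm _ _
  have n2 : ‖Complex.I * ⟪AA (x i) Ω r, E (x i) (-r) (ev x p (E (x i) (-r') Ω))⟫_ℂ‖ ≤ 2 * ‖J‖ * ‖evΩ x Ω p‖ := by
    rw [norm_mul, Complex.norm_I, one_mul]
    refine (norm_inner_le_norm _ _).trans ?_
    rw [n0]
    gcongr
    exact norm_AA_le h hJ r
  have n3 : ‖Complex.I * ⟪AA (x i) Ω r', E (x i) (-(r + r')) (evΩ x Ω p)⟫_ℂ‖ ≤ 2 * ‖J‖ * ‖evΩ x Ω p‖ := by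
    rw [norm_mul, Complex.norm_I, one_mul]
    refine (norm_inner_le_norm _ _).trans ?_
    rw [norm_E_apply (h.sa i)]
    gcongr
    exact norm_AA_le h hJ r'
  have e : ⟪tt (E (x i) r Ω) (E (x i) r' Ω), vv (evΩ x Ω) (fdq i p)⟫_ℂ =
      ⟪J, E (x i) (-r) (ev x p (E (x i) (-r') Ω))⟫_ℂ +
      Complex.I * ⟪AA (x i) Ω r, E (x i) (-r) (ev x p (E (x i) (-r') Ω))⟫_ℂ +
      Complex.I * ⟪AA (x i) Ω r', E (x i) (-(r + r')) (evΩ x Ω p)⟫_ℂ := by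
    rw [h1]; ring
  rw [e]
  refine (norm_add_le _ _).trans ?_
  refine (add_le_add_left (norm_add_le _ _) _).trans ?_
  linarith

/-- `D(s) = ∂ᵢ exp(i s x_i) = i ∫₀^s exp(i r x_i) ⊗ exp(i (s-r) x_i) dr`. -/
def DD (a : L →L[ℂ] L) (Ω : L) (s : ℝ) : HT L :=
  Complex.I • ∫ r in (0:ℝ)..s, tt (E a r Ω) (E a (s - r) Ω)

lemma continuous_tt_E (a : L →L[ℂ] L) (Ω : L) (s : ℝ) :
    Continuous fun r : ℝ => tt (E a r Ω) (E a (s - r) Ω) := by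
  have h1 : Continuous fun r : ℝ => ttL (E a r Ω) := (ttL (L := L)).continuous.comp (continuous_E_apply a Ω)
  exact h1.clm_apply ((continuous_E_apply a Ω).comp (continuous_const.sub continuous_id))

lemma inner_DD_le (h : IsTuple x Ω) {i : Fin m} {J : L} (hJ : IsConj x Ω i J) (p : Poly m) (s : ℝ) :
    ‖⟪DD (x i) Ω s, vv (evΩ x Ω) (fdq i p)⟫_ℂ‖ ≤ (5 * ‖J‖ * |s|) * ‖evΩ x Ω p‖ := by
  unfold DD
  rw [inner_smul_left, norm_mul, RCLike.norm_conj, Complex.norm_I, one_mul,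
    inner_intervalIntegral_left (continuous_tt_E (x i) Ω s)]
  have h1 := intervalIntegral.norm_integral_le_of_norm_le_const (a := (0:ℝ)) (b := s)
    (f := fun r => ⟪tt (E (x i) r Ω) (E (x i) (s - r) Ω), vv (evΩ x Ω) (fdq i p)⟫_ℂ)
    (C := 5 * ‖J‖ * ‖evΩ x Ω p‖) (fun r _ => bound5 h hJ p r (s - r))
  rw [sub_zero] at h1
  refine h1.trans (le_of_eq ?_)
  ring

/-- `k(y) = |χ(y)|²`. -/
lemma inner_tt_E {a : L →L[ℂ] L} (ha : IsSelfAdjoint a) (Ω : L) (s r q : ℝ) :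
    ⟪tt (E a r Ω) (E a (s - r) Ω), tt (E a q Ω) (E a (s - q) Ω)⟫_ℂ = ((‖chi a Ω (q - r)‖ ^ 2 : ℝ) : ℂ) := by
  rw [inner_tt, inner_E_left ha, inner_E_left ha, ← E_apply_add, ← E_apply_add]
  have e1 : -r + q = q - r := by ring
  have e2 : -(s - r) + (s - q) = -(q - r) := by ring
  rw [e1, e2]
  change chi a Ω (q - r) * chi a Ω (-(q - r)) = _
  rw [chi_neg ha, Complex.mul_conj, Complex.normSq_eq_norm_sq]

lemma integral_ge {k : ℝ → ℝ} (hk : Continuous k) (hk0 : ∀ y, 0 ≤ k y) {δ : ℝ} (hδ : 0 < δ)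
    (hkδ : ∀ y, |y| ≤ δ → 1 / 2 ≤ k y) {s q : ℝ} (hs : 2 * δ ≤ s) (hq0 : 0 ≤ q) (hqs : q ≤ s) :
    δ / 2 ≤ ∫ r in (0:ℝ)..s, k (q - r) := by
  rw [intervalIntegral.integral_comp_sub_left (fun y => k y) q, sub_zero]
  have hint : ∀ a b : ℝ, IntervalIntegrable k volume a b := fun a b => hk.intervalIntegrable a b
  rcases le_total δ q with h | h
  · calc δ / 2 = ∫ _ in (0:ℝ)..δ, (1 / 2 : ℝ) := by simp; ring
      _ ≤ ∫ y in (0:ℝ)..δ, k y := by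
        apply intervalIntegral.integral_mono_on hδ.le (by simp) (hint _ _)
        intro y hy
        exact hkδ y (abs_le.mpr ⟨by linarith [hy.1], hy.2⟩)
      _ ≤ ∫ y in (q - s)..q, k y := by
        apply intervalIntegral.integral_mono_interval (by linarith) hδ.le h
          (Eventually.of_forall hk0) (hint _ _)
  · calc δ / 2 = ∫ _ in (-δ)..0, (1 / 2 : ℝ) := by simp; ring
      _ ≤ ∫ y in (-δ)..0, k y := by
        apply intervalIntegral.integral_mono_on (by linarith) (by simp) (hint _ _)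
        intro y hy
        exact hkδ y (abs_le.mpr ⟨hy.1, by linarith [hy.2]⟩)
      _ ≤ ∫ y in (q - s)..q, k y := by
        apply intervalIntegral.integral_mono_interval (by linarith) (by linarith) hq0
          (Eventually.of_forall hk0) (hint _ _)

lemma norm_DD_ge {a : L →L[ℂ] L} (ha : IsSelfAdjoint a) (Ω : L) {δ : ℝ} (hδ : 0 < δ)
    (hkδ : ∀ y, |y| ≤ δ → 1 / 2 ≤ ‖chi a Ω y‖ ^ 2) {s : ℝ} (hs : 2 * δ ≤ s) :
    s * (δ / 2) ≤ ‖DD a Ω s‖ ^ 2 := by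
  have hk : Continuous fun y => ‖chi a Ω y‖ ^ 2 := (continuous_chi a Ω).norm.pow 2
  set f : ℝ → HT L := fun r => tt (E a r Ω) (E a (s - r) Ω) with hf
  have hfc : Continuous f := continuous_tt_E a Ω s
  set d : HT L := ∫ r in (0:ℝ)..s, f r with hd
  have n1 : ‖DD a Ω s‖ = ‖d‖ := by
    unfold DD
    rw [norm_smul, Complex.norm_I, one_mul]
  have e1 : ∀ q, ⟪d, f q⟫_ℂ = ((∫ r in (0:ℝ)..s, ‖chi a Ω (q - r)‖ ^ 2 : ℝ) : ℂ) := by
    intro q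
    rw [hd, inner_intervalIntegral_left hfc, ← intervalIntegral.integral_ofReal]
    congr 1
    funext r
    exact inner_tt_E ha Ω s r q
  have e2 : ((‖d‖ ^ 2 : ℝ) : ℂ) = ∫ q in (0:ℝ)..s, ⟪d, f q⟫_ℂ := by
    rw [← inner_intervalIntegral_right hfc, ← hd, inner_self_eq_norm_sq_to_K]
    simp
  have hg : Continuous fun q => ∫ r in (0:ℝ)..s, ‖chi a Ω (q - r)‖ ^ 2 := by
    have h1 : Continuous fun q => (⟪d, f q⟫_ℂ).re := Complex.continuous_re.comp (continuous_const.inner hfc)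
    simpa only [e1, Complex.ofReal_re] using h1
  have e3 : ‖d‖ ^ 2 = ∫ q in (0:ℝ)..s, (∫ r in (0:ℝ)..s, ‖chi a Ω (q - r)‖ ^ 2) := by
    simp only [e1] at e2
    rw [intervalIntegral.integral_ofReal] at e2
    exact_mod_cast e2
  rw [n1, e3]
  have hs0 : 0 ≤ s := by linarith
  calc s * (δ / 2) = ∫ _ in (0:ℝ)..s, (δ / 2 : ℝ) := by simp; ring
    _ ≤ _ := by
      apply intervalIntegral.integral_mono_on hs0 (by simp) (hg.intervalIntegrable _ _)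
      intro q hq
      exact integral_ge hk (fun y => by positivity) hδ hkδ hs hq.1 hq.2

lemma exists_delta {a : L →L[ℂ] L} {Ω : L} (hΩ : ‖Ω‖ = 1) :
    ∃ δ : ℝ, 0 < δ ∧ ∀ y, |y| ≤ δ → 1 / 2 ≤ ‖chi a Ω y‖ ^ 2 := by
  have hk : Continuous fun y => ‖chi a Ω y‖ ^ 2 := (continuous_chi a Ω).norm.pow 2
  have h0 : ‖chi a Ω 0‖ ^ 2 = 1 := by
    unfold chi
    rw [E_zero]
    change ‖⟪Ω, Ω⟫_ℂ‖ ^ 2 = 1
    rw [inner_self_eq_norm_sq_to_K, hΩ]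
    simp
  have hev : ∀ᶠ y in 𝓝 (0:ℝ), 1 / 2 < ‖chi a Ω y‖ ^ 2 :=
    hk.continuousAt.eventually (lt_mem_nhds (by simp only [h0]; norm_num))
  obtain ⟨ε, hε, hb⟩ := Metric.eventually_nhds_iff.mp hev
  refine ⟨ε / 2, by positivity, fun y hy => (hb ?_).le⟩
  rw [Real.dist_eq, sub_zero]
  linarith

end

end FDQ
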