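import Mathlib

/-!
# Free difference quotients, the Laplacian `∑ ∂̄ᵢ* ∂̄ᵢ` and its heat semigroup

All definitions are for a tuple `x = (x_1,…,x_m)` of bounded self-adjoint operators on a complex
Hilbert space `H` and a vector `Ω` (the trace vector).
-/

open scoped TensorProduct InnerProductSpace Topology
open Filter

namespace FDQ

noncomputable section

/-- The algebra `ℂ⟨X_1,…,X_m⟩` of noncommutative polynomials. -/
abbrev Poly (m : ℕ) := FreeAlgebra ℂ (Fin m)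

/-- The variable `X_j`. -/
def X {m : ℕ} (j : Fin m) : Poly m := FreeAlgebra.ι ℂ j

/-- The algebra homomorphism `p ↦ [[p ⊗ 1, ∂ᵢ p], [0, 1 ⊗ p]]`, which is a convenient way to
construct the derivation `∂ᵢ`. -/
def fdqHom {m : ℕ} (i : Fin m) : Poly m →ₐ[ℂ] Matrix (Fin 2) (Fin 2) (Poly m ⊗[ℂ] Poly m) :=
  FreeAlgebra.lift ℂ fun j => !![X j ⊗ₜ[ℂ] (1 : Poly m), if j = i then 1 ⊗ₜ[ℂ] 1 else 0;
    0, (1 : Poly m) ⊗ₜ[ℂ] X j]

/-- The `i`-th free difference quotient `∂ᵢ : ℂ⟨X⟩ → ℂ⟨X⟩ ⊗ ℂ⟨X⟩`, i.e. the unique derivation (for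
the bimodule structure `a·(b ⊗ c)·d = ab ⊗ cd`) with `∂ᵢ X_j = δ_{ij} 1 ⊗ 1`; see `fdq_X`,
`fdq_mul` and `fdq_unique` below. -/
def fdq {m : ℕ} (i : Fin m) : Poly m →ₗ[ℂ] Poly m ⊗[ℂ] Poly m :=
  (Matrix.entryLinearMap ℂ (Poly m ⊗[ℂ] Poly m) (0 : Fin 2) (1 : Fin 2)) ∘ₗ (fdqHom i).toLinearMap

theorem fdqHom_entries {m : ℕ} (i : Fin m) (p : Poly m) :
    fdqHom i p 1 0 = 0 ∧ fdqHom i p 0 0 = p ⊗ₜ[ℂ] 1 ∧ fdqHom i p 1 1 = 1 ⊗ₜ[ℂ] p := by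
  induction p using FreeAlgebra.induction with
  | grade0 r =>
    rw [AlgHom.commutes]
    refine ⟨by simp [Matrix.algebraMap_matrix_apply], ?_, ?_⟩
    · rw [Matrix.algebraMap_matrix_apply, if_pos rfl, Algebra.TensorProduct.algebraMap_apply]
    · rw [Matrix.algebraMap_matrix_apply, if_pos rfl, Algebra.TensorProduct.algebraMap_apply']
  | grade1 j => simp [fdqHom, X]
  | mul a b ha hb =>
    obtain ⟨ha1, ha2, ha3⟩ := ha
    obtain ⟨hb1, hb2, hb3⟩ := hb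
    rw [map_mul]
    simp only [Matrix.mul_apply, Fin.sum_univ_two, ha1, ha2, ha3, hb1, hb2, hb3]
    simp
  | add a b ha hb =>
    obtain ⟨ha1, ha2, ha3⟩ := ha
    obtain ⟨hb1, hb2, hb3⟩ := hb
    rw [map_add]
    simp only [Matrix.add_apply, ha1, ha2, ha3, hb1, hb2, hb3, TensorProduct.add_tmul,
      TensorProduct.tmul_add]
    simp

theorem fdq_X {m : ℕ} (i j : Fin m) : fdq i (X j) = if j = i then 1 ⊗ₜ[ℂ] 1 else 0 := by
  simp [fdq, fdqHom, X]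

/-- The Leibniz rule `∂ᵢ(pq) = p·∂ᵢ(q) + ∂ᵢ(p)·q`; note that `(a ⊗ b)(c ⊗ d) = ac ⊗ bd` in
`ℂ⟨X⟩ ⊗ ℂ⟨X⟩`. -/
theorem fdq_mul {m : ℕ} (i : Fin m) (p q : Poly m) :
    fdq i (p * q) = (p ⊗ₜ[ℂ] 1) * fdq i q + fdq i p * (1 ⊗ₜ[ℂ] q) := by
  simp only [fdq, LinearMap.comp_apply, AlgHom.toLinearMap_apply, map_mul, Matrix.entryLinearMap_apply,
    Matrix.mul_apply, Fin.sum_univ_two, (fdqHom_entries _ _).2.1,
    (fdqHom_entries _ _).2.2]

theorem fdq_one {m : ℕ} (i : Fin m) : fdq i (1 : Poly m) = 0 := by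
  simp [fdq]

/-- `∂ᵢ` is the only linear map with the Leibniz rule and `∂ᵢ X_j = δ_{ij} 1 ⊗ 1`. -/
theorem fdq_unique {m : ℕ} (i : Fin m) (D : Poly m →ₗ[ℂ] Poly m ⊗[ℂ] Poly m)
    (hX : ∀ j, D (X j) = if j = i then 1 ⊗ₜ[ℂ] 1 else 0)
    (hmul : ∀ p q, D (p * q) = (p ⊗ₜ[ℂ] 1) * D q + D p * (1 ⊗ₜ[ℂ] q)) : D = fdq i := by
  have h1 : D 1 = 0 := by
    have h := hmul 1 1
    rw [mul_one, ← Algebra.TensorProduct.one_def, mul_one, one_mul] at h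
    simpa using h
  ext p
  induction p using FreeAlgebra.induction with
  | grade0 r =>
    rw [Algebra.algebraMap_eq_smul_one, map_smul, map_smul, h1, fdq_one]
  | grade1 j => exact (hX j).trans (fdq_X i j).symm
  | mul a b ha hb => rw [hmul, fdq_mul, ha, hb]
  | add a b ha hb => rw [map_add, map_add, ha, hb]

section Space

variable {m : ℕ} {L : Type*} [NormedAddCommGroup L] [InnerProductSpace ℂ L]

/-- The Hilbert space tensor product `L ⊗̄ L`. -/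
abbrev HT (L : Type*) [NormedAddCommGroup L] [InnerProductSpace ℂ L] :=
  UniformSpace.Completion (L ⊗[ℂ] L)

/-- For `v : ℂ⟨X⟩ → L` this is the map `p ⊗ q ↦ v p ⊗ v q` into `L ⊗̄ L`. -/
def vv (v : Poly m →ₗ[ℂ] L) : Poly m ⊗[ℂ] Poly m →ₗ[ℂ] HT L :=
  (UniformSpace.Completion.toComplL (𝕜 := ℂ) (E := L ⊗[ℂ] L)).toLinearMap ∘ₗ TensorProduct.map v v

/-- `E = L ⊕ (L ⊗̄ L)^m`, the Hilbert space direct sum. -/
abbrev ES (m : ℕ) (L : Type*) [NormedAddCommGroup L] [InnerProductSpace ℂ L] :=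
  WithLp 2 (L × PiLp 2 (fun _ : Fin m => HT L))

/-- The graph of the closure of `∂ᵢ`, i.e. the closure of `{(v p, ∂ᵢ p)}` in `L × (L ⊗̄ L)`. -/
def graph (v : Poly m →ₗ[ℂ] L) (i : Fin m) : Submodule ℂ (L × HT L) :=
  (LinearMap.range (v.prod (vv v ∘ₗ fdq i))).topologicalClosure

/-- The gradient `p ↦ (v p, ∂_1 p, …, ∂_m p)`. -/
def gradGraph (v : Poly m →ₗ[ℂ] L) : Poly m →ₗ[ℂ] ES m L :=
  (WithLp.linearEquiv 2 ℂ (L × PiLp 2 (fun _ : Fin m => HT L))).symm.toLinearMap ∘ₗ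
    v.prod ((WithLp.linearEquiv 2 ℂ (∀ _ : Fin m, HT L)).symm.toLinearMap ∘ₗ
      LinearMap.pi fun i => vv v ∘ₗ fdq i)

/-- The graph of the closure of the gradient `(∂_1,…,∂_m)` (minimal domain). -/
def gmin (v : Poly m →ₗ[ℂ] L) : Submodule ℂ (ES m L) :=
  (LinearMap.range (gradGraph v)).topologicalClosure

/-- The graph of the gradient `(∂̄_1,…,∂̄_m)` on `⋂ᵢ dom ∂̄ᵢ` (maximal domain). -/
def gmax (v : Poly m →ₗ[ℂ] L) : Submodule ℂ (ES m L) where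
  carrier := {z | ∀ i, (z.fst, z.snd i) ∈ graph v i}
  add_mem' := fun ha hb i => (graph v i).add_mem (ha i) (hb i)
  zero_mem' := fun i => (graph v i).zero_mem
  smul_mem' := fun c _ ha i => (graph v i).smul_mem c (ha i)

/-- `(ξ, w)` belongs to the graph of `Δ = ∂̄* ∂̄`, where `∂̄` is the closed operator with graph `G`:
`ξ ∈ dom ∂̄`, `∂̄ ξ ∈ dom ∂̄*` and `∂̄* ∂̄ ξ = w`. -/
def IsLaplacian (G : Submodule ℂ (ES m L)) (ξ w : L) : Prop :=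
  ∃ ζ : PiLp 2 (fun _ : Fin m => HT L), WithLp.toLp 2 (ξ, ζ) ∈ G ∧
    ∀ z ∈ G, ⟪ζ, z.snd⟫_ℂ = ⟪w, z.fst⟫_ℂ

variable [CompleteSpace L]

/-- The resolvent `(1 + Δ)⁻¹` of `Δ = ∂̄* ∂̄`, `∂̄` the closed operator with graph `G`: it is
`ξ ↦ first component of the orthogonal projection of (ξ, 0) onto G`. See `resolvent_spec`. -/
def resolvent (G : Submodule ℂ (ES m L)) : L →L[ℂ] L :=
  (WithLp.fstL 2 ℂ L (PiLp 2 (fun _ : Fin m => HT L))) ∘L (G.topologicalClosure.starProjection) ∘L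
    ((WithLp.prodContinuousLinearEquiv 2 ℂ L (PiLp 2 (fun _ : Fin m => HT L))).symm.toContinuousLinearMap ∘L
      ContinuousLinearMap.inl ℂ L (PiLp 2 (fun _ : Fin m => HT L)))

/-- `φ_t = exp(-tΔ)` for `t > 0`, computed by functional calculus from `S = (1 + Δ)⁻¹`:
`Δ = S⁻¹ - 1`, so `exp(-tΔ) = f_t(S)` with `f_t(s) = exp(-t(1/s - 1))` (and `f_t(0) = 0`). -/
def heat (G : Submodule ℂ (ES m L)) (t : ℝ) : L →L[ℂ] L :=
  cfc (fun s : ℝ => if s ≤ 0 then 0 else Real.exp (-t * (1 / s - 1))) (resolvent G)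

end Space

section Tuple

variable {m : ℕ} {H : Type*} [NormedAddCommGroup H] [InnerProductSpace ℂ H] [CompleteSpace H]

/-- Evaluation of noncommutative polynomials at the tuple `x`. -/
def ev (x : Fin m → H →L[ℂ] H) : Poly m →ₐ[ℂ] (H →L[ℂ] H) := FreeAlgebra.lift ℂ x

/-- The linear map `p ↦ p(x) Ω`. -/
def evΩ (x : Fin m → H →L[ℂ] H) (Ω : H) : Poly m →ₗ[ℂ] H :=
  (ContinuousLinearMap.apply ℂ H Ω).toLinearMap ∘ₗ (ev x).toLinearMap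

end Tuple

/-- Finite free Fisher information: all `1 ⊗ 1` lie in the domain of `∂ᵢ*`, that is, the conjugate
variables `J_i = ∂ᵢ*(1 ⊗ 1) ∈ L²(N)` exist. -/
def FiniteFisher {m : ℕ} {L : Type*} [NormedAddCommGroup L] [InnerProductSpace ℂ L]
    (v : Poly m →ₗ[ℂ] L) : Prop :=
  ∀ i : Fin m, ∃ J : L, ∀ p : Poly m, ⟪J, v p⟫_ℂ = ⟪vv v (1 ⊗ₜ[ℂ] 1), vv v (fdq i p)⟫_ℂ

end

end FDQ
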