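import Pool.Agent.Helper38.FDQ.Defs

open scoped TensorProduct InnerProductSpace Topology
open Filter

namespace FDQ

noncomputable section

/-- The function `f_t(s) = exp(-t(1/s-1))`, `f_t(s)=0` for `s ≤ 0`. -/
def ft (t : ℝ) (s : ℝ) : ℝ := if s ≤ 0 then 0 else Real.exp (-t * (1 / s - 1))

lemma ft_eq {t : ℝ} (ht : 0 < t) (s : ℝ) : ft t s = Real.exp t * expNegInvGlue (s / t) := by
  unfold ft expNegInvGlue
  by_cases hs : s ≤ 0
  · rw [if_pos hs, if_pos (div_nonpos_of_nonpos_of_nonneg hs ht.le), mul_zero]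
  · rw [if_neg hs, if_neg (by rw [not_le] at hs ⊢; positivity), ← Real.exp_add]
    congr 1
    rw [inv_div]
    ring

lemma ft_continuous {t : ℝ} (ht : 0 < t) : Continuous (ft t) := by
  have : ft t = fun s => Real.exp t * expNegInvGlue (s / t) := funext (ft_eq ht)
  rw [this]
  exact continuous_const.mul ((expNegInvGlue.contDiff (n := 0)).continuous.comp (continuous_id.div_const t))

lemma one_sub_exp_neg_ge {y : ℝ} (hy : 0 ≤ y) : y - y ^ 2 / 2 ≤ 1 - Real.exp (-y) := by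
  have h := Real.quadratic_le_exp_of_nonneg hy
  have h1 : Real.exp (-y) ≤ 1 / (1 + y + y ^ 2 / 2) := by
    rw [Real.exp_neg, one_div]
    exact inv_anti₀ (by positivity) h
  have h2 : 1 / (1 + y + y ^ 2 / 2) ≤ 1 - y + y ^ 2 / 2 := by
    rw [div_le_iff₀ (by positivity)]
    nlinarith [sq_nonneg (y ^ 2)]
  linarith

lemma ft_ineq {t s : ℝ} (ht : 0 < t) (h0 : 0 ≤ s) (h1 : s ≤ 1) :
    0 ≤ s * (1 - ft t s) * s - t * (s * (1 - s)) + t ^ 2 / 2 * ((1 - s) * (1 - s)) := by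
  rcases h0.eq_or_lt with rfl | h0
  · simp; positivity
  · have hx : 0 ≤ 1 / s - 1 := by
      rw [sub_nonneg, le_div_iff₀ h0]; linarith
    have h := one_sub_exp_neg_ge (mul_nonneg ht.le hx)
    have e : ft t s = Real.exp (-(t * (1 / s - 1))) := by
      unfold ft
      rw [if_neg (by linarith)]
      congr 1; ring
    rw [← e] at h
    have h2 : s ^ 2 * (t * (1 / s - 1) - (t * (1 / s - 1)) ^ 2 / 2) ≤ s ^ 2 * (1 - ft t s) := by
      gcongr
    have e2 : s ^ 2 * (t * (1 / s - 1) - (t * (1 / s - 1)) ^ 2 / 2) = t * (s * (1 - s)) - t ^ 2 / 2 * ((1 - s) * (1 - s)) := by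
      field_simp
    rw [e2] at h2
    nlinarith [h2]

variable {L : Type*} [NormedAddCommGroup L] [InnerProductSpace ℂ L] [CompleteSpace L]

open ContinuousLinearMap in
lemma heat_ineq (S : L →L[ℂ] L) (hS : 0 ≤ S) (hn : ‖S‖ ≤ 1) (v : L) {t : ℝ} (ht : 0 < t) :
    t * (⟪S v, v - S v⟫_ℂ).re - t ^ 2 / 2 * ‖v - S v‖ ^ 2 ≤ (⟪S v, S v - cfc (ft t) S (S v)⟫_ℂ).re := by
  have hsa : IsSelfAdjoint S := IsSelfAdjoint.of_nonneg hS
  have hfc : ContinuousOn (ft t) (spectrum ℝ S) := (ft_continuous ht).continuousOn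
  have key : 0 ≤ cfc (fun s : ℝ => s * (1 - ft t s) * s - t * (s * (1 - s)) + t ^ 2 / 2 * ((1 - s) * (1 - s))) S := by
    apply cfc_nonneg
    intro s hs
    apply ft_ineq ht (spectrum_nonneg_of_nonneg hS hs)
    have h1 := spectrum.norm_le_norm_mul_of_mem hs
    have h2 : ‖(1 : L →L[ℂ] L)‖ ≤ 1 := ContinuousLinearMap.norm_id_le
    calc s ≤ ‖s‖ := Real.le_norm_self s
      _ ≤ ‖S‖ * ‖(1 : L →L[ℂ] L)‖ := h1
      _ ≤ 1 * 1 := by gcongr
      _ = 1 := by norm_num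
  have e : cfc (fun s : ℝ => s * (1 - ft t s) * s - t * (s * (1 - s)) + t ^ 2 / 2 * ((1 - s) * (1 - s))) S =
      S * (1 - cfc (ft t) S) * S - t • (S * (1 - S)) + (t ^ 2 / 2) • ((1 - S) * (1 - S)) := by
    have c1 : cfc (fun s : ℝ => 1 - s) S = 1 - S := by
      rw [cfc_sub (fun _ : ℝ => (1 : ℝ)) (fun s : ℝ => s) S, cfc_const_one ℝ S, cfc_id' ℝ S]
    have c2 : cfc (fun s : ℝ => 1 - ft t s) S = 1 - cfc (ft t) S := by
      rw [cfc_sub (fun _ : ℝ => (1 : ℝ)) (fun s : ℝ => ft t s) S, cfc_const_one ℝ S]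
    have c3 : cfc (fun s : ℝ => s * (1 - ft t s) * s) S = S * (1 - cfc (ft t) S) * S := by
      rw [cfc_mul (fun s : ℝ => s * (1 - ft t s)) (fun s : ℝ => s) S,
        cfc_mul (fun s : ℝ => s) (fun s : ℝ => 1 - ft t s) S, c2, cfc_id' ℝ S]
    have c4 : cfc (fun s : ℝ => t * (s * (1 - s))) S = t • (S * (1 - S)) := by
      rw [cfc_const_mul t (fun s : ℝ => s * (1 - s)) S,
        cfc_mul (fun s : ℝ => s) (fun s : ℝ => 1 - s) S, c1, cfc_id' ℝ S]
    have c5 : cfc (fun s : ℝ => t ^ 2 / 2 * ((1 - s) * (1 - s))) S = (t ^ 2 / 2) • ((1 - S) * (1 - S)) := by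
      rw [cfc_const_mul (t ^ 2 / 2) (fun s : ℝ => (1 - s) * (1 - s)) S,
        cfc_mul (fun s : ℝ => 1 - s) (fun s : ℝ => 1 - s) S, c1]
    rw [cfc_add (a := S) (fun s : ℝ => s * (1 - ft t s) * s - t * (s * (1 - s)))
      (fun s : ℝ => t ^ 2 / 2 * ((1 - s) * (1 - s))),
      cfc_sub (fun s : ℝ => s * (1 - ft t s) * s) (fun s : ℝ => t * (s * (1 - s))) S, c3, c4, c5]
  rw [e, nonneg_iff_isPositive] at key
  have k := key.re_inner_nonneg_right v
  have hadj : ∀ u w : L, ⟪u, S w⟫_ℂ = ⟪S u, w⟫_ℂ := fun u w => by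
    rw [← ContinuousLinearMap.adjoint_inner_left]
    congr 2
  have hadj1 : ∀ u w : L, ⟪u, w - S w⟫_ℂ = ⟪u - S u, w⟫_ℂ := fun u w => by
    rw [inner_sub_right, inner_sub_left, hadj]
  have e1 : ((S * (1 - cfc (ft t) S) * S - t • (S * (1 - S)) + (t ^ 2 / 2) • ((1 - S) * (1 - S)) : L →L[ℂ] L) v) =
    S (S v - cfc (ft t) S (S v)) - t • S (v - S v) + (t ^ 2 / 2) • ((v - S v) - S (v - S v)) := by
    simp
  have e2 : ⟪v, (t ^ 2 / 2) • (v - S v - S (v - S v))⟫_ℂ = ((t ^ 2 / 2 * ‖v - S v‖ ^ 2 : ℝ) : ℂ) := by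
    rw [← Complex.coe_smul, inner_smul_right, hadj1, inner_self_eq_norm_sq_to_K]
    push_cast
    simp
  have e3 : ⟪v, t • S (v - S v)⟫_ℂ = (t : ℂ) * ⟪S v, v - S v⟫_ℂ := by
    rw [← Complex.coe_smul, inner_smul_right, hadj]
  rw [e1, inner_add_right, inner_sub_right, hadj, e2, e3] at k
  simp only [RCLike.re_to_complex, Complex.add_re, Complex.sub_re, Complex.re_ofReal_mul, Complex.ofReal_re] at k
  linarith

variable {m : ℕ}

lemma resolvent_apply (G : Submodule ℂ (ES m L)) (ξ : L) :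
    resolvent G ξ = (G.topologicalClosure.starProjection (WithLp.toLp 2 (ξ, 0))).fst := rfl

lemma resolvent_inner (G : Submodule ℂ (ES m L)) (ξ η : L) :
    ⟪η, resolvent G ξ⟫_ℂ = ⟪G.topologicalClosure.starProjection (WithLp.toLp 2 (η, 0)),
      G.topologicalClosure.starProjection (WithLp.toLp 2 (ξ, 0))⟫_ℂ := by
  have h1 : ⟪η, resolvent G ξ⟫_ℂ =
      ⟪(WithLp.toLp 2 (η, 0) : ES m L), G.topologicalClosure.starProjection (WithLp.toLp 2 (ξ, 0))⟫_ℂ := by
    rw [WithLp.prod_inner_apply, resolvent_apply]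
    change _ = _ + ⟪(0 : PiLp 2 (fun _ : Fin m => HT L)), _⟫_ℂ
    rw [inner_zero_left, add_zero]
    rfl
  rw [h1]
  have h2 := Submodule.starProjection_inner_eq_zero (K := G.topologicalClosure)
    (WithLp.toLp 2 (η, 0) : ES m L) (G.topologicalClosure.starProjection (WithLp.toLp 2 (ξ, 0)))
    (Submodule.starProjection_apply_mem _ _)
  rw [inner_sub_left, sub_eq_zero] at h2
  exact h2

/-- `(1+Δ)⁻¹` is positive. -/
lemma resolvent_nonneg (G : Submodule ℂ (ES m L)) : 0 ≤ resolvent G := by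
  rw [ContinuousLinearMap.nonneg_iff_isPositive]
  refine ⟨?_, ?_⟩
  · intro ξ η
    have h1 := resolvent_inner G η ξ
    have h2 := resolvent_inner G ξ η
    have h3 : ⟪resolvent G ξ, η⟫_ℂ = (starRingEnd ℂ) ⟪η, resolvent G ξ⟫_ℂ := (inner_conj_symm _ _).symm
    change ⟪resolvent G ξ, η⟫_ℂ = ⟪ξ, resolvent G η⟫_ℂ
    rw [h3, h2, h1, inner_conj_symm]
  · intro ξ
    have h2 := resolvent_inner G ξ ξ
    have h3 : ⟪resolvent G ξ, ξ⟫_ℂ = (starRingEnd ℂ) ⟪ξ, resolvent G ξ⟫_ℂ := (inner_conj_symm _ _).symm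
    rw [ContinuousLinearMap.reApplyInnerSelf_apply, h3, h2, inner_conj_symm]
    exact inner_self_nonneg

/-- `‖(1+Δ)⁻¹‖ ≤ 1`. -/
lemma norm_resolvent_le (G : Submodule ℂ (ES m L)) : ‖resolvent G‖ ≤ 1 := by
  refine ContinuousLinearMap.opNorm_le_bound _ zero_le_one fun ξ => ?_
  rw [resolvent_apply, one_mul]
  have h1 : ‖(G.topologicalClosure.starProjection (WithLp.toLp 2 (ξ, 0) : ES m L)).fst‖ ≤
      ‖G.topologicalClosure.starProjection (WithLp.toLp 2 (ξ, 0) : ES m L)‖ := WithLp.norm_fst_le _ _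
  have h2 : ‖G.topologicalClosure.starProjection (WithLp.toLp 2 (ξ, 0) : ES m L)‖ ≤ ‖(WithLp.toLp 2 (ξ, 0) : ES m L)‖ :=
    Submodule.norm_starProjection_apply_le _ _
  have h3 : ‖(WithLp.toLp 2 (ξ, 0) : ES m L)‖ = ‖ξ‖ := by
    rw [WithLp.prod_norm_eq_of_L2]
    simp
  rw [← h3]
  exact h1.trans h2

/-- `(1+Δ)⁻¹ (ξ + Δ ξ) = ξ`. -/
theorem resolvent_apply_of_isLaplacian (G : Submodule ℂ (ES m L)) (hG : IsClosed (G : Set (ES m L)))
    {ξ w : L} (h : IsLaplacian G ξ w) : resolvent G (ξ + w) = ξ := by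
  obtain ⟨ζ, hζ, ho⟩ := h
  have h1 : G.topologicalClosure.starProjection (WithLp.toLp 2 (ξ + w, 0) : ES m L) = WithLp.toLp 2 (ξ, ζ) := by
    apply Submodule.eq_starProjection_of_mem_of_inner_eq_zero
    · exact G.le_topologicalClosure hζ
    · intro z hz
      rw [hG.submodule_topologicalClosure_eq] at hz
      have := ho z hz
      have e : (WithLp.toLp 2 (ξ + w, 0) : ES m L) - WithLp.toLp 2 (ξ, ζ) = WithLp.toLp 2 (w, -ζ) := by
        rw [← WithLp.toLp_sub]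
        simp
      rw [e, WithLp.prod_inner_apply]
      simp only [inner_neg_left]
      rw [← sub_eq_add_neg, sub_eq_zero]
      exact this.symm
  rw [resolvent_apply, h1]
  rfl

/-- Every `v` is of the form `ξ + Δ ξ`, with `ξ = (1+Δ)⁻¹ v`. -/
theorem isLaplacian_resolvent (G : Submodule ℂ (ES m L)) (hG : IsClosed (G : Set (ES m L))) (v : L) :
    IsLaplacian G (resolvent G v) (v - resolvent G v) := by
  refine ⟨(G.topologicalClosure.starProjection (WithLp.toLp 2 (v, 0))).snd, ?_, ?_⟩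
  · have h := Submodule.starProjection_apply_mem G.topologicalClosure (WithLp.toLp 2 (v, 0) : ES m L)
    have h' := (Submodule.ext_iff.mp hG.submodule_topologicalClosure_eq _).mp h
    exact h'
  · intro z hz
    have h2 := Submodule.starProjection_inner_eq_zero (K := G.topologicalClosure)
      (WithLp.toLp 2 (v, 0) : ES m L) z (G.le_topologicalClosure hz)
    rw [WithLp.prod_inner_apply] at h2
    have e1 : ((WithLp.toLp 2 (v, 0) : ES m L) - G.topologicalClosure.starProjection (WithLp.toLp 2 (v, 0))).fst =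
      v - resolvent G v := rfl
    have e2 : ((WithLp.toLp 2 (v, 0) : ES m L) - G.topologicalClosure.starProjection (WithLp.toLp 2 (v, 0))).snd =
      - (G.topologicalClosure.starProjection (WithLp.toLp 2 (v, 0) : ES m L)).snd := by
      rw [WithLp.sub_snd]
      simp
    change ⟪((WithLp.toLp 2 (v, 0) : ES m L) - G.topologicalClosure.starProjection (WithLp.toLp 2 (v, 0))).fst, z.fst⟫_ℂ +
      ⟪((WithLp.toLp 2 (v, 0) : ES m L) - G.topologicalClosure.starProjection (WithLp.toLp 2 (v, 0))).snd, z.snd⟫_ℂ = 0 at h2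
    rw [e1, e2, inner_neg_left, ← sub_eq_add_neg, sub_eq_zero] at h2
    exact h2.symm

theorem heat_lower (G : Submodule ℂ (ES m L)) (hG : IsClosed (G : Set (ES m L)))
    {ξ w : L} (h : IsLaplacian G ξ w) {t : ℝ} (ht : 0 < t) :
    t * (⟪ξ, w⟫_ℂ).re - t ^ 2 / 2 * ‖w‖ ^ 2 ≤ (⟪ξ, ξ - heat G t ξ⟫_ℂ).re := by
  have h1 := resolvent_apply_of_isLaplacian G hG h
  have h2 := heat_ineq (resolvent G) (resolvent_nonneg G) (norm_resolvent_le G) (ξ + w) ht
  rw [h1, add_sub_cancel_left] at h2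
  exact h2

end

end FDQ
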