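import Pool.Agent.Helper38.FDQ.Core4
import Pool.Agent.Helper38.FDQ.Spectral

open scoped TensorProduct InnerProductSpace Topology Nat
open Filter MeasureTheory

namespace FDQ

noncomputable section

variable {m : ℕ} {L : Type*} [NormedAddCommGroup L] [InnerProductSpace ℂ L]

/-- inclusion of the first summand -/
def i1 : L →L[ℂ] ES m L :=
  (WithLp.prodContinuousLinearEquiv 2 ℂ L (PiLp 2 (fun _ : Fin m => HT L))).symm.toContinuousLinearMap ∘L
      ContinuousLinearMap.inl ℂ L (PiLp 2 (fun _ : Fin m => HT L))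

/-- inclusion of the `i`-th copy of `L ⊗̄ L` -/
def i2 (i : Fin m) : HT L →L[ℂ] ES m L :=
  (WithLp.prodContinuousLinearEquiv 2 ℂ L (PiLp 2 (fun _ : Fin m => HT L))).symm.toContinuousLinearMap ∘L
      (ContinuousLinearMap.inr ℂ L (PiLp 2 (fun _ : Fin m => HT L))) ∘L
      (PiLp.continuousLinearEquiv 2 ℂ (fun _ : Fin m => HT L)).symm.toContinuousLinearMap ∘L
      (ContinuousLinearMap.single ℂ (fun _ : Fin m => HT L) i)

lemma i1_add_i2 (i : Fin m) (ξ : L) (ζ : HT L) :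
    (i1 ξ + i2 i ζ : ES m L) = WithLp.toLp 2 (ξ, WithLp.toLp 2 (Pi.single i ζ)) := by
  have h1 : (i1 ξ : ES m L) = WithLp.toLp 2 (ξ, 0) := rfl
  have h2 : (i2 i ζ : ES m L) = WithLp.toLp 2 (0, WithLp.toLp 2 (Pi.single i ζ)) := rfl
  rw [h1, h2, ← WithLp.toLp_add]
  simp

lemma gradGraph_apply (v : Poly m →ₗ[ℂ] L) (p : Poly m) :
    gradGraph v p = WithLp.toLp 2 (v p, WithLp.toLp 2 (fun k => vv v (fdq k p))) := rfl

lemma gradGraph_pow (v : Poly m →ₗ[ℂ] L) (i : Fin m) (n : ℕ) :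
    gradGraph v (X i ^ n) = i1 (v (X i ^ n)) + i2 i (vv v (fdq i (X i ^ n))) := by
  rw [i1_add_i2, gradGraph_apply]
  congr 3
  funext k
  by_cases hk : k = i
  · subst hk; simp
  · rw [Pi.single_eq_of_ne hk, fdq_pow_ne (Ne.symm hk), map_zero]

lemma gmax_isClosed (v : Poly m →ₗ[ℂ] L) : IsClosed (gmax v : Set (ES m L)) := by
  have : (gmax v : Set (ES m L)) = ⋂ i, {z : ES m L | (z.fst, z.snd i) ∈ graph v i} := by
    ext z
    simp only [Set.mem_iInter]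
    rfl
  rw [this]
  refine isClosed_iInter fun i => ?_
  have hc : Continuous fun z : ES m L => (z.fst, z.snd i) := by
    fun_prop
  exact (Submodule.isClosed_topologicalClosure _).preimage hc

/-- The minimal domain is contained in the maximal domain. -/
theorem gmin_le_gmax (v : Poly m →ₗ[ℂ] L) : gmin v ≤ gmax v := by
  refine Submodule.topologicalClosure_minimal _ ?_ (gmax_isClosed v)
  rintro _ ⟨p, rfl⟩ i
  exact Submodule.le_topologicalClosure _ ⟨p, rfl⟩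

theorem gmin_isClosed (v : Poly m →ₗ[ℂ] L) : IsClosed (gmin v : Set (ES m L)) :=
  Submodule.isClosed_topologicalClosure _

variable [CompleteSpace L]
variable {x : Fin m → L →L[ℂ] L} {Ω : L}

/-- `exp(i s x_i) Ω ∈ dom ∂̄` with `∂̄ exp(i s x_i) = (0,…,D(s),…,0)`. -/
lemma mem_gmin (i : Fin m) (s : ℝ) :
    (WithLp.toLp 2 (E (x i) s Ω, WithLp.toLp 2 (Pi.single i (DD (x i) Ω s))) : ES m L) ∈ gmin (evΩ x Ω) := by
  have h1 : HasSum (fun n : ℕ => ((Complex.I * s) ^ n / (n ! : ℂ)) • evΩ x Ω (X i ^ n)) (E (x i) s Ω) := by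
    have := (ContinuousLinearMap.apply ℂ L Ω).hasSum (hasSum_E (x i) s)
    convert! this using 1
    funext n
    rw [map_smul, evΩ_pow]
    rfl
  have h2 : HasSum (fun n : ℕ => ((Complex.I * s) ^ n / (n ! : ℂ)) • vv (evΩ x Ω) (fdq i (X i ^ n)))
      (DD (x i) Ω s) := by
    have := duhamel ((ttL (L := L)).bilinearComp (ContinuousLinearMap.apply ℂ L Ω) (ContinuousLinearMap.apply ℂ L Ω))
      (x i) Complex.I s
    convert! this using 1
    funext n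
    rw [fdq_pow, map_sum]
    congr 1
    refine Finset.sum_congr rfl fun j _ => ?_
    rw [vv_tmul, evΩ_pow, evΩ_pow]
    rfl
  have h3 := ((i1 (m := m) (L := L)).hasSum h1).add ((i2 (m := m) (L := L) i).hasSum h2)
  rw [i1_add_i2] at h3
  refine (gmin_isClosed (evΩ x Ω)).mem_of_tendsto h3.tendsto_sum_nat (Eventually.of_forall fun N => ?_)
  refine (gmin (evΩ x Ω)).sum_mem fun n _ => ?_
  rw [map_smul, map_smul, ← smul_add, ← gradGraph_pow]
  exact (gmin (evΩ x Ω)).smul_mem _ (Submodule.le_topologicalClosure _ ⟨_, rfl⟩)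

/-- `Δ exp(i s x_i) Ω = w` exists with `‖w‖ ≤ 5 ‖J‖ |s|` and `⟨w, exp(i s x_i) Ω⟩ = ‖D(s)‖²`. -/
lemma exists_laplacian (h : IsTuple x Ω) (hd : DenseRange (evΩ x Ω)) {i : Fin m} {J : L} (hJ : IsConj x Ω i J)
    (s : ℝ) : ∃ w : L, ‖w‖ ≤ 5 * ‖J‖ * |s| ∧
      (∀ z ∈ graph (evΩ x Ω) i, ⟪DD (x i) Ω s, z.2⟫_ℂ = ⟪w, z.1⟫_ℂ) := by
  set f : Poly m →ₗ[ℂ] ℂ := (innerSL ℂ (DD (x i) Ω s)).toLinearMap ∘ₗ vv (evΩ x Ω) ∘ₗ fdq i with hf
  have hb : ∀ p, ‖f p‖ ≤ (5 * ‖J‖ * |s|) * ‖evΩ x Ω p‖ := fun p => inner_DD_le h hJ p s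
  set F : L →L[ℂ] ℂ := f.extendOfNorm (evΩ x Ω) with hF
  have hFe : ∀ p, F (evΩ x Ω p) = f p := fun p => LinearMap.extendOfNorm_eq hd ⟨_, hb⟩ p
  have hFn : ‖F‖ ≤ 5 * ‖J‖ * |s| := LinearMap.opNorm_extendOfNorm_le hd (by positivity) hb
  refine ⟨(InnerProductSpace.toDual ℂ L).symm F, ?_, ?_⟩
  · rw [LinearIsometryEquiv.norm_map]; exact hFn
  · have hcl : IsClosed {z : L × HT L | ⟪DD (x i) Ω s, z.2⟫_ℂ = ⟪(InnerProductSpace.toDual ℂ L).symm F, z.1⟫_ℂ} :=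
      isClosed_eq (continuous_const.inner continuous_snd) (continuous_const.inner continuous_fst)
    intro z hz
    refine closure_minimal ?_ hcl hz
    rintro _ ⟨p, rfl⟩
    change ⟪DD (x i) Ω s, vv (evΩ x Ω) (fdq i p)⟫_ℂ = ⟪(InnerProductSpace.toDual ℂ L).symm F, evΩ x Ω p⟫_ℂ
    rw [InnerProductSpace.toDual_symm_apply, hFe]
    rfl

/-- The main estimate. -/
theorem main_lower (h : IsTuple x Ω) (hd : DenseRange (evΩ x Ω)) (i : Fin m) {J : L} (hJ : IsConj x Ω i J)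
    (G : Submodule ℂ (ES m L)) (hG : IsClosed (G : Set (ES m L))) (hmin : gmin (evΩ x Ω) ≤ G)
    (hmax : G ≤ gmax (evΩ x Ω)) :
    ∃ ε : ℝ, 0 < ε ∧ ∃ T : ℝ, 0 < T ∧ ∀ t : ℝ, 0 < t → t < T →
      ∃ s : ℝ, ε ≤ ‖heat G t (E (x i) s Ω) - E (x i) s Ω‖ := by
  obtain ⟨δ, hδ, hk⟩ := exists_delta (a := x i) h.norm
  set b : ℝ := ‖J‖ + 1 with hb
  have hb0 : 0 < b := by positivity
  set c : ℝ := δ / 2 with hc
  have hc0 : 0 < c := by positivity
  set κ : ℝ := c / (25 * b ^ 2) with hκ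
  have hκ0 : 0 < κ := by positivity
  refine ⟨c ^ 2 / (50 * b ^ 2), by positivity, κ / (2 * δ), by positivity, fun t ht htT => ⟨κ / t, ?_⟩⟩
  set s : ℝ := κ / t with hs
  have hs0 : 0 < s := by positivity
  have hs1 : 2 * δ ≤ s := by
    rw [hs, le_div_iff₀ ht]
    rw [lt_div_iff₀ (by positivity)] at htT
    linarith
  obtain ⟨w, hw1, hw2⟩ := exists_laplacian h hd hJ s
  have hmem := mem_gmin (x := x) (Ω := Ω) i s
  have hlap : IsLaplacian G (E (x i) s Ω) w := by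
    refine ⟨WithLp.toLp 2 (Pi.single i (DD (x i) Ω s)), hmin hmem, fun z hz => ?_⟩
    have h1 := hw2 _ (hmax hz i)
    rw [PiLp.inner_apply, Finset.sum_eq_single i]
    · simpa using h1
    · intro k _ hk
      simp [Pi.single_eq_of_ne hk]
    · simp
  have hh := heat_lower G hG hlap ht
  have hin : (⟪E (x i) s Ω, w⟫_ℂ).re = ‖DD (x i) Ω s‖ ^ 2 := by
    have h1 := hw2 _ (hmax (hmin hmem) i)
    simp only [WithLp.toLp_fst, WithLp.toLp_snd, PiLp.toLp_apply, Pi.single_eq_same] at h1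
    rw [← inner_conj_symm, ← h1, inner_self_eq_norm_sq_to_K]
    simp [← Complex.ofReal_pow]
  have hlow := norm_DD_ge (h.sa i) Ω hδ hk hs1
  have hw : ‖w‖ ≤ 5 * b * s := by
    refine hw1.trans ?_
    rw [abs_of_pos hs0]
    gcongr
    linarith
  have hcs : (⟪E (x i) s Ω, E (x i) s Ω - heat G t (E (x i) s Ω)⟫_ℂ).re ≤
      ‖heat G t (E (x i) s Ω) - E (x i) s Ω‖ := by
    calc _ ≤ ‖⟪E (x i) s Ω, E (x i) s Ω - heat G t (E (x i) s Ω)⟫_ℂ‖ := Complex.re_le_norm _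
      _ ≤ ‖E (x i) s Ω‖ * ‖E (x i) s Ω - heat G t (E (x i) s Ω)‖ := norm_inner_le_norm _ _
      _ = _ := by rw [norm_E_apply (h.sa i), h.norm, one_mul, norm_sub_rev]
  refine le_trans ?_ (hh.trans hcs)
  rw [hin]
  have hts : t * s = κ := by rw [hs]; field_simp
  have e1 : t * (s * c) ≤ t * ‖DD (x i) Ω s‖ ^ 2 := by gcongr
  have e2 : t ^ 2 / 2 * ‖w‖ ^ 2 ≤ t ^ 2 / 2 * (5 * b * s) ^ 2 := by gcongr
  have e3 : t * (s * c) - t ^ 2 / 2 * (5 * b * s) ^ 2 = κ * c - (25 / 2) * b ^ 2 * κ ^ 2 := by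
    rw [← hts]; ring
  have e4 : κ * c - (25 / 2) * b ^ 2 * κ ^ 2 = c ^ 2 / (50 * b ^ 2) := by
    rw [hκ]
    field_simp
    ring
  linarith

end

end FDQ
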