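import Mathlib

/-!
# Definitions for MP_5b305c_an

`L` stands for `L²(N)`, `K` for `L²(N) ⊗̄ L²(N)`, `P` for the noncommutative polynomials
`ℂ⟨X_1,…,X_m⟩ = FreeAlgebra ℂ (Fin m)` and `v : P → L` for the map `p ↦ p(x_1,…,x_m)`.
-/

open scoped TensorProduct InnerProductSpace Topology
open Filter

namespace FDHeat

noncomputable section

/-- `D` is the `i`-th free difference quotient on noncommutative polynomials: the derivation, for the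
bimodule structure `a·(b ⊗ c)·d = ab ⊗ cd`, with `D X_j = δ_{ij} 1 ⊗ 1`. -/
def IsFDQ {m : ℕ} (i : Fin m)
    (D : FreeAlgebra ℂ (Fin m) →ₗ[ℂ] FreeAlgebra ℂ (Fin m) ⊗[ℂ] FreeAlgebra ℂ (Fin m)) : Prop :=
  (∀ j, D (FreeAlgebra.ι ℂ j) = if j = i then 1 ⊗ₜ[ℂ] 1 else 0) ∧
    ∀ p q, D (p * q) = (p ⊗ₜ[ℂ] 1) * D q + D p * (1 ⊗ₜ[ℂ] q)

section Generic

variable {P L K : Type*} [AddCommGroup P] [Module ℂ P] [NormedAddCommGroup L]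
  [InnerProductSpace ℂ L] [NormedAddCommGroup K] [InnerProductSpace ℂ K] {m : ℕ}

/-- `G ⊆ L × K^m` is the graph of a closed operator `∂̄ : L → K^m` which extends
`v p ↦ (d_1 p,…,d_m p)` and is a restriction of `(d̄_1,…,d̄_m)` (with domain `⋂ᵢ dom d̄ᵢ`), where
`d̄ᵢ` is the closure of `v p ↦ d_i p`. -/
def IsGradient (v : P →ₗ[ℂ] L) (d : Fin m → P →ₗ[ℂ] K) (G : Submodule ℂ (L × (Fin m → K))) :
    Prop :=
  IsClosed (G : Set (L × (Fin m → K))) ∧ (∀ p, (v p, fun i => d i p) ∈ G) ∧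
    ∀ z ∈ G, ∀ i, (z.1, z.2 i) ∈ closure (Set.range fun p => (v p, d i p))

/-- `ξ ∈ dom Δ` and `Δ ξ = w`, where `Δ = ∂̄*∂̄` and `∂̄` has graph `G`: `ξ ∈ dom ∂̄`,
`ζ = ∂̄ ξ ∈ dom ∂̄*` and `∂̄* ζ = w`. -/
def IsLaplacian (G : Submodule ℂ (L × (Fin m → K))) (ξ w : L) : Prop :=
  ∃ ζ : Fin m → K, (ξ, ζ) ∈ G ∧ ∀ z ∈ G, ∑ i, ⟪ζ i, z.2 i⟫_ℂ = ⟪w, z.1⟫_ℂ

/-- `S = (1 + Δ)⁻¹`: for all `u`, `S u ∈ dom Δ` and `Δ (S u) = u - S u`. -/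
def IsResolvent (G : Submodule ℂ (L × (Fin m → K))) (S : L →L[ℂ] L) : Prop :=
  ∀ u, IsLaplacian G (S u) (u - S u)

/-- `φ_t = exp(-tΔ)` for `t > 0`, in terms of `S = (1 + Δ)⁻¹`: as `Δ = S⁻¹ - 1`, it is `f_t(S)` with
`f_t(s) = exp(-t(1/s - 1))` for `s > 0` and `f_t(s) = 0` for `s ≤ 0`. -/
def heat [CompleteSpace L] (S : L →L[ℂ] L) (t : ℝ) : L →L[ℂ] L :=
  cfc (fun s : ℝ => if s ≤ 0 then 0 else Real.exp (-t * (1 / s - 1))) S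

/-- For every gradient `∂̄` as above, with `Δ = ∂̄*∂̄`, the resolvent `S = (1 + Δ)⁻¹` exists, and
`sup {‖φ_t ξ - ξ‖ : ξ ∈ B}` does not tend to `0` as `t → 0+`, `φ_t = exp(-tΔ)`. -/
def NotUniformOn [CompleteSpace L] (v : P →ₗ[ℂ] L) (d : Fin m → P →ₗ[ℂ] K) (B : Set L) : Prop :=
  ∀ G : Submodule ℂ (L × (Fin m → K)), IsGradient v d G →
    ∃ S : L →L[ℂ] L, IsResolvent G S ∧
      ¬ Tendsto (fun t : ℝ => sSup {r : ℝ | ∃ ξ ∈ B, r = ‖heat S t ξ - ξ‖}) (𝓝[>] 0) (𝓝 0)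

/-- The map `p ⊗ q ↦ v p ⊗ v q` into the Hilbert space tensor product `L ⊗̄ L`. -/
def tmap (v : P →ₗ[ℂ] L) : P ⊗[ℂ] P →ₗ[ℂ] UniformSpace.Completion (L ⊗[ℂ] L) :=
  (UniformSpace.Completion.toComplL (𝕜 := ℂ) (E := L ⊗[ℂ] L)).toLinearMap ∘ₗ TensorProduct.map v v

end Generic

section FDQ

variable {m : ℕ} {L : Type*} [NormedAddCommGroup L] [InnerProductSpace ℂ L]

/-- Finite free Fisher information: `1 ⊗ 1 ∈ dom D_i*` for all `i`, that is, there are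
`J_i = D_i*(1 ⊗ 1) ∈ L` with `⟨J_i, p⟩ = ⟨1 ⊗ 1, D_i p⟩` for all polynomials `p`. -/
def FiniteFisher (v : FreeAlgebra ℂ (Fin m) →ₗ[ℂ] L)
    (D : Fin m → FreeAlgebra ℂ (Fin m) →ₗ[ℂ] FreeAlgebra ℂ (Fin m) ⊗[ℂ] FreeAlgebra ℂ (Fin m)) :
    Prop :=
  ∀ i : Fin m, ∃ J : L, ∀ p, ⟪J, v p⟫_ℂ = ⟪tmap v (1 ⊗ₜ[ℂ] 1), tmap v (D i p)⟫_ℂ

/-- The heat semigroup of `Δ = ∑ᵢ D̄ᵢ*D̄ᵢ` does not converge to the identity uniformly on `B`. -/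
def HeatNotUniform [CompleteSpace L] (v : FreeAlgebra ℂ (Fin m) →ₗ[ℂ] L)
    (D : Fin m → FreeAlgebra ℂ (Fin m) →ₗ[ℂ] FreeAlgebra ℂ (Fin m) ⊗[ℂ] FreeAlgebra ℂ (Fin m))
    (B : Set L) : Prop :=
  NotUniformOn v (fun i => tmap v ∘ₗ D i) B

end FDQ

section Tuple

variable {m : ℕ} {H : Type*} [NormedAddCommGroup H] [InnerProductSpace ℂ H]

/-- `L²(N)` for `N = W*(x_1,…,x_m)`, as the closure of `{p(x) Ω : p ∈ ℂ⟨X_1,…,X_m⟩}` in `H`. -/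
def L2N (x : Fin m → H →L[ℂ] H) (Ω : H) : Submodule ℂ H :=
  (Submodule.span ℂ (Set.range fun p => FreeAlgebra.lift ℂ x p Ω)).topologicalClosure

lemma mem_L2N (x : Fin m → H →L[ℂ] H) (Ω : H) (p : FreeAlgebra ℂ (Fin m)) :
    FreeAlgebra.lift ℂ x p Ω ∈ L2N x Ω :=
  Submodule.le_topologicalClosure _ (Submodule.subset_span ⟨p, rfl⟩)

/-- The canonical map `ℂ⟨X⟩ → L²(N)`, `p ↦ p(x) Ω`. -/
def poly (x : Fin m → H →L[ℂ] H) (Ω : H) : FreeAlgebra ℂ (Fin m) →ₗ[ℂ] L2N x Ω where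
  toFun p := ⟨FreeAlgebra.lift ℂ x p Ω, mem_L2N x Ω p⟩
  map_add' p q := by ext; simp
  map_smul' c p := by ext; simp

/-- The image in `L²(N)` of the operator norm unit ball of `N = W*(x_1,…,x_m)` (the double
commutant of the self-adjoint operators `x_i`): all `y Ω`, `y ∈ N`, `‖y‖ ≤ 1`. -/
def ballN (x : Fin m → H →L[ℂ] H) (Ω : H) : Set (L2N x Ω) :=
  {ξ | ∃ y ∈ Set.centralizer (Set.centralizer (Set.range x)), ‖y‖ ≤ 1 ∧ (ξ : H) = y Ω}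

instance [CompleteSpace H] (x : Fin m → H →L[ℂ] H) (Ω : H) : CompleteSpace (L2N x Ω) :=
  (Submodule.isClosed_topologicalClosure _).completeSpace_coe

end Tuple

end

end FDHeat
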