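import Pool.Agent.Helper38.FDQ.Main
import Pool.Agent.Helper38.FDQ.Pub

open scoped TensorProduct InnerProductSpace Topology Nat
open Filter MeasureTheory

namespace FDQ

open FDHeat (L2N poly ballN mem_L2N)

noncomputable section

variable {m : ℕ} {H : Type*} [NormedAddCommGroup H] [InnerProductSpace ℂ H] [CompleteSpace H]
variable {x : Fin m → H →L[ℂ] H} {Ω : H}

omit [CompleteSpace H] in
lemma poly_coe (p : Poly m) : (poly x Ω p : H) = ev x p Ω := rfl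

omit [CompleteSpace H] in
lemma L2N_eq : L2N x Ω = (LinearMap.range (evΩ x Ω)).topologicalClosure := by
  unfold L2N
  congr 1
  have : (Set.range fun p => FreeAlgebra.lift ℂ x p Ω) = ((LinearMap.range (evΩ x Ω)) : Set H) := rfl
  rw [this, Submodule.span_eq]

omit [CompleteSpace H] in
lemma x_mem_L2 (i : Fin m) (ξ : L2N x Ω) : x i (ξ : H) ∈ L2N x Ω := by
  have hcl : IsClosed {η : H | x i η ∈ L2N x Ω} :=
    (Submodule.isClosed_topologicalClosure _).preimage (x i).continuous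
  have hsub : ((LinearMap.range (evΩ x Ω)) : Set H) ⊆ {η : H | x i η ∈ L2N x Ω} := by
    rintro _ ⟨p, rfl⟩
    have h := mem_L2N x Ω (X i * p)
    change ev x (X i * p) Ω ∈ L2N x Ω at h
    rw [map_mul, ev_X] at h
    exact h
  have h2 : (ξ : H) ∈ (LinearMap.range (evΩ x Ω)).topologicalClosure := by
    rw [← L2N_eq]; exact ξ.2
  exact closure_minimal hsub hcl h2

/-- The restriction of `x_i` to `L²(N)`. -/
def xL (x : Fin m → H →L[ℂ] H) (Ω : H) (i : Fin m) : L2N x Ω →L[ℂ] L2N x Ω :=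
  ((x i) ∘L (L2N x Ω).subtypeL).codRestrict (L2N x Ω) fun ξ => x_mem_L2 i ξ

/-- The trace vector as an element of `L²(N)`. -/
def ΩL (x : Fin m → H →L[ℂ] H) (Ω : H) : L2N x Ω := poly x Ω 1

omit [CompleteSpace H] in
lemma coe_ΩL : (ΩL x Ω : H) = Ω := by
  simp [ΩL, poly_coe]

omit [CompleteSpace H] in
lemma coe_xL (i : Fin m) (ξ : L2N x Ω) : (xL x Ω i ξ : H) = x i ξ := rfl

omit [CompleteSpace H] in
lemma coe_ev (p : Poly m) (ξ : L2N x Ω) : (ev (xL x Ω) p ξ : H) = ev x p ξ := by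
  induction p using FreeAlgebra.induction generalizing ξ with
  | grade0 r => rw [AlgHom.commutes, AlgHom.commutes]; rfl
  | grade1 j =>
    change ((ev (xL x Ω) (X j)) ξ : H) = ev x (X j) ξ
    rw [ev_X, ev_X]; rfl
  | mul a b ha hb => rw [map_mul, map_mul, mul_apply_eq_comp, mul_apply_eq_comp, ha, hb]
  | add a b ha hb =>
    rw [map_add, map_add]
    change (((ev (xL x Ω) a) ξ : H) + ((ev (xL x Ω) b) ξ : H)) = _
    rw [ha, hb]; rfl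

omit [CompleteSpace H] in
lemma evΩ_xL : evΩ (xL x Ω) (ΩL x Ω) = poly x Ω := by
  ext p
  rw [evΩ_apply, coe_ev, coe_ΩL]
  rfl

omit [CompleteSpace H] in
lemma dense_poly : DenseRange (poly x Ω) := by
  intro ξ
  rw [closure_subtype]
  have : (Subtype.val '' Set.range (poly x Ω)) = ((LinearMap.range (evΩ x Ω)) : Set H) := by
    ext η
    constructor
    · rintro ⟨_, ⟨p, rfl⟩, rfl⟩
      exact ⟨p, rfl⟩
    · rintro ⟨p, rfl⟩
      exact ⟨_, ⟨p, rfl⟩, rfl⟩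
  rw [this]
  have h2 : (ξ : H) ∈ (LinearMap.range (evΩ x Ω)).topologicalClosure := by
    rw [← L2N_eq]; exact ξ.2
  exact h2

lemma isTuple_xL (hΩ : ‖Ω‖ = 1) (hsa : ∀ i, IsSelfAdjoint (x i))
    (htr : ∀ p q : Poly m, ⟪Ω, ev x (p * q) Ω⟫_ℂ = ⟪Ω, ev x (q * p) Ω⟫_ℂ) :
    IsTuple (xL x Ω) (ΩL x Ω) where
  norm := by
    rw [← hΩ]
    change ‖(ΩL x Ω : H)‖ = _
    rw [coe_ΩL]
  sa i := by
    rw [ContinuousLinearMap.isSelfAdjoint_iff_isSymmetric]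
    intro ξ η
    change ⟪((xL x Ω i ξ : L2N x Ω) : H), (η : H)⟫_ℂ = ⟪(ξ : H), ((xL x Ω i η : L2N x Ω) : H)⟫_ℂ
    rw [coe_xL, coe_xL]
    exact (ContinuousLinearMap.isSelfAdjoint_iff_isSymmetric.mp (hsa i)) _ _
  tr p q := by
    change ⟪(ΩL x Ω : H), ((ev (xL x Ω) (p * q) (ΩL x Ω) : L2N x Ω) : H)⟫_ℂ =
      ⟪(ΩL x Ω : H), ((ev (xL x Ω) (q * p) (ΩL x Ω) : L2N x Ω) : H)⟫_ℂ
    rw [coe_ev, coe_ev, coe_ΩL]
    exact htr p q

lemma coe_E (i : Fin m) (s : ℝ) : ((E (xL x Ω i) s (ΩL x Ω) : L2N x Ω) : H) = E (x i) s Ω := by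
  have h1 := (ContinuousLinearMap.apply ℂ (L2N x Ω) (ΩL x Ω)).hasSum (hasSum_E (xL x Ω i) s)
  have h2 := (L2N x Ω).subtypeL.hasSum h1
  have h3 := (ContinuousLinearMap.apply ℂ H Ω).hasSum (hasSum_E (x i) s)
  refine h2.unique ?_
  convert! h3 using 1
  funext n
  rw [map_smul, map_smul, map_smul]
  congr 1
  change ((((xL x Ω i) ^ n) (ΩL x Ω) : L2N x Ω) : H) = ((x i) ^ n) Ω
  rw [← ev_pow, ← ev_pow, coe_ev, coe_ΩL]

lemma E_mem_WStar (i : Fin m) (s : ℝ) :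
    E (x i) s ∈ Set.centralizer (Set.centralizer (Set.range x)) := by
  intro T hT
  have h1 : Commute T (x i) := (hT (x i) ⟨i, rfl⟩).symm
  let +nondep : NormedAlgebra ℚ (H →L[ℂ] H) := .restrictScalars ℚ ℂ (H →L[ℂ] H)
  have h2 : Commute T (E (x i) s) := (h1.smul_right _).exp_right
  exact h2

lemma norm_E_le (hsa : ∀ i, IsSelfAdjoint (x i)) (i : Fin m) (s : ℝ) : ‖E (x i) s‖ ≤ 1 :=
  ContinuousLinearMap.opNorm_le_bound _ zero_le_one fun ξ => by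
    rw [norm_E_apply (hsa i), one_mul]

/-- The set `{‖φ_t(y) - y‖₂ : y ∈ N, ‖y‖ ≤ 1}`. -/
def devSet (x : Fin m → H →L[ℂ] H) (Ω : H) (T : L2N x Ω →L[ℂ] L2N x Ω) : Set ℝ :=
  {r | ∃ ξ ∈ ballN x Ω, r = ‖T ξ - ξ‖}

lemma devSet_bddAbove (hΩ : ‖Ω‖ = 1) (T : L2N x Ω →L[ℂ] L2N x Ω) : BddAbove (devSet x Ω T) := by
  refine ⟨‖T - 1‖, ?_⟩
  rintro r ⟨ξ, ⟨y, _, hy, hξ⟩, rfl⟩
  have h1 : ‖ξ‖ ≤ 1 := by
    change ‖(ξ : H)‖ ≤ 1
    rw [hξ]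
    calc ‖y Ω‖ ≤ ‖y‖ * ‖Ω‖ := y.le_opNorm _
      _ ≤ 1 * 1 := by rw [hΩ]; gcongr
      _ = 1 := by norm_num
  calc ‖T ξ - ξ‖ = ‖(T - 1) ξ‖ := rfl
    _ ≤ ‖T - 1‖ * ‖ξ‖ := ContinuousLinearMap.le_opNorm _ _
    _ ≤ ‖T - 1‖ * 1 := by gcongr
    _ = _ := mul_one _

theorem transfer_main (hΩ : ‖Ω‖ = 1) (hsa : ∀ i, IsSelfAdjoint (x i))
    (htr : ∀ p q : Poly m, ⟪Ω, ev x (p * q) Ω⟫_ℂ = ⟪Ω, ev x (q * p) Ω⟫_ℂ) (hm : 0 < m)
    (hF : FiniteFisher (poly x Ω))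
    (G : Submodule ℂ (ES m (L2N x Ω))) (hG : IsClosed (G : Set (ES m (L2N x Ω))))
    (hmin : gmin (poly x Ω) ≤ G) (hmax : G ≤ gmax (poly x Ω)) :
    ∃ ε : ℝ, 0 < ε ∧ ∃ T : ℝ, 0 < T ∧ ∀ t : ℝ, 0 < t → t < T → ε ≤ sSup (devSet x Ω (heat G t)) := by
  have hT := isTuple_xL hΩ hsa htr
  have hd : DenseRange (evΩ (xL x Ω) (ΩL x Ω)) := by rw [evΩ_xL]; exact dense_poly
  set i : Fin m := ⟨0, hm⟩ with hi
  obtain ⟨J, hJ⟩ := hF i
  have hconj : IsConj (xL x Ω) (ΩL x Ω) i J := by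
    intro p
    rw [evΩ_xL]
    exact hJ p
  obtain ⟨ε, hε, T, hT0, hmain⟩ := main_lower hT hd i hconj G hG (by rw [evΩ_xL]; exact hmin)
    (by rw [evΩ_xL]; exact hmax)
  refine ⟨ε, hε, T, hT0, fun t ht htT => ?_⟩
  obtain ⟨s, hs⟩ := hmain t ht htT
  refine hs.trans (le_csSup (devSet_bddAbove hΩ _) ?_)
  exact ⟨E (xL x Ω i) s (ΩL x Ω), ⟨E (x i) s, E_mem_WStar i s, norm_E_le hsa i s, coe_E i s⟩, rfl⟩

end

end FDQ
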